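import Pool.Agent.H12.Jayne.Rec

/-!
# Catching a point of the compact set at a good ordinal
-/

open Finset

namespace Pool.Agent.H12.Jayne

variable {W : Type} [LinearOrder W] [OrderBot W]

/-- the coordinates of a point which are used by a code -/
def ev (c : Code W) (x : W → List ℕ → ℝ) : ZZ c.sh.s c.sh.n :=
  (fun i => x (c.r i), fun j => x (c.a j))

/-- the code uses only coordinates below `al` -/
def Below (c : Code W) (al : W) : Prop := (∀ i, c.r i < al) ∧ ∀ j, c.a j < al

/-- the reflection property -/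
def Refl (k : W → List ℕ → ℝ) (B : Set (Code W)) (al : W) : Prop :=
  ∀ (sh : Shape) (r : Fin sh.s → W) (a : Fin sh.n → W), (⟨sh, r, a⟩ : Code W) ∈ B →
    (∀ i, r i < al) → StrictMono a → ∀ (m : ℕ) (F : Finset W), (∀ b ∈ F, b < al) →
    (∀ b ∈ F, ∀ j, b < a j) → OrdS k m (↑F ∪ Set.range a) →
    ∃ a' : Fin sh.n → W, StrictMono a' ∧ (∀ j, a' j < al) ∧ (∀ b ∈ F, ∀ j, b < a' j) ∧
      (⟨sh, r, a'⟩ : Code W) ∈ B ∧ OrdS k m (↑F ∪ Set.range a') ∧
      ∀ j t, V t → t.length ≤ m → k (a' j) t = k (a j) t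

theorem catch_pt {S : W → Set (Code W)} {mu : W → ℕ → List ℕ → ℝ} {k : W → List ℕ → ℝ}
    (hg : ∀ al, Good S mu k al) {x : W → List ℕ → ℝ} (hx : x ∈ KK k) {B : Set (Code W)}
    {al ga : W} (hga : ga < al) (hS : ∀ c : Code W, c ∈ S al ↔ c ∈ B ∧ Below c al)
    (hR : Refl k B al) {sh : Shape} {r : Fin sh.s → W} {a : Fin sh.n → W}
    (hc : (⟨sh, r, a⟩ : Code W) ∈ B) (hr : ∀ i, r i < al) (ha : StrictMono a)
    (hala : ∀ j, al ≤ a j) {e : ℝ} (he : 0 < e) {n0 : ℕ}
    (hO : ∀ v : Fin sh.n → List ℕ → ℝ,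
      (∀ j t, V t → t.length ≤ n0 → |v j t - x (a j) t| < e) →
      (∀ j t, ¬ V t → v j t = 0) → ((fun i => x (r i), v) : ZZ sh.s sh.n) ∈ (sh.O : Set _))
    (hj : WW k x ga - WW k x al < e / 4) :
    ∃ c ∈ B, Below c al ∧ ev c x ∈ (c.sh.O : Set _) := by
  classical
  have hk := Good.wts hg
  have halbot : al ≠ ⊥ := (bot_le.trans_lt hga).ne'
  -- the level
  obtain ⟨n1, hn1⟩ := exists_wt_close hk hx al (show 0 < e / 12 by positivity)
  obtain ⟨n2, hn2⟩ := exists_pow_lt_of_lt_one (show 0 < e / 4 by positivity)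
    (show (1 / 2 : ℝ) < 1 by norm_num)
  set F0 : Finset W := insert al (univ.image a) with hF0
  have haF0 : ∀ j, a j ∈ F0 := fun j => mem_insert_of_mem (mem_image_of_mem _ (mem_univ j))
  obtain ⟨N, g, Fp, hN, hrun, hcopy, hord⟩ := (Good.inv hg F0).2.2 al (mem_insert_self _ _) halbot
    sh r hr ga hga (max (max n0 n1) n2)
  obtain ⟨hNg, hFp, hrun⟩ := hrun
  have hpow : (1 / 2 ^ N : ℝ) < e / 4 := by
    have h1 : (1 / 2 : ℝ) ^ N ≤ (1 / 2) ^ n2 :=
      pow_le_pow_of_le_one (by norm_num) (by norm_num) (by omega)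
    have h2 : (1 / 2 ^ N : ℝ) = (1 / 2) ^ N := by rw [div_pow, one_pow]
    rw [h2]; linarith
  -- orders
  have ord_al : ∀ j, al < a j → Ord k N al (a j) := by
    intro j hlt t ht hl
    rcases Nat.lt_or_ge g t.length with h | h
    · exact hord al (Or.inl (by simp [hF0])) (a j) (Or.inl (by exact_mod_cast haF0 j)) hlt t ht h
    · exact (hcopy _ (haF0 j) (hala j) t ht hl h).le
  have ord_a : ∀ i j, i < j → Ord k N (a i) (a j) := by
    intro i j hij t ht hl
    rcases Nat.lt_or_ge g t.length with h | h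
    · exact hord (a i) (Or.inl (by exact_mod_cast haF0 i)) (a j)
        (Or.inl (by exact_mod_cast haF0 j)) (ha hij) t ht h
    · rw [hcopy _ (haF0 j) (hala j) t ht hl h, hcopy _ (haF0 i) (hala i) t ht hl h]
  -- normalised masses
  set w : W → List ℕ → ℝ := fun b t => x b t / pr (k b) t with hw
  have w0 : ∀ b t, V t → 0 ≤ w b t := fun b t ht => div_nonneg (hx.1 b t) (hk.ppos b ht).le
  have w1 : ∀ j, ∀ t ∈ T N, w (a j) t ≤ w al t := by
    intro j t ht
    rcases (hala j).eq_or_lt with h | h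
    · rw [h]
    · exact div_le_div_of_ord hk hx h (V_of_mem ht) (by rw [length_of_mem ht]; exact ord_al j h)
  have w2 : ∀ i j, i ≤ j → ∀ t ∈ T N, w (a j) t ≤ w (a i) t := by
    intro i j hij t ht
    rcases hij.eq_or_lt with h | h
    · rw [h]
    · exact div_le_div_of_ord hk hx (ha h) (V_of_mem ht)
        (by rw [length_of_mem ht]; exact ord_a i j h)
  -- the task
  have hth1 : ∀ j, ∃ f : ↥(TT N) → ↥(Gr N), ∀ t ∈ TT N, ex f t = k (a j) t := fun j =>
    exists_ex _ fun t ht => Gr_mono (mem_TT.1 ht).2 (hk.gr (a j) t (mem_TT.1 ht).1)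
  have hth2 : ∀ j, ∃ f : ↥(TT N) → ↥(Gr N), ∀ t ∈ TT N,
      ex f t = up N (min 1 (w (a j) t / w al t)) := fun j =>
    exists_ex _ fun t _ => up_mem (min_le_left _ _)
  choose f1 hf1 using hth1
  choose f2 hf2 using hth2
  have hTT : ∀ t ∈ T N, t ∈ TT N := fun t ht => mem_TT.2 ⟨V_of_mem ht, (length_of_mem ht).le⟩
  have hf2' : ∀ j, ∀ t ∈ T N, ex (f2 j) t = up N (w (a j) t / w al t) := by
    intro j t ht
    rw [hf2 j t (hTT t ht), min_eq_right]
    exact div_le_one_of_le₀ (w1 j t ht) (w0 al t (V_of_mem ht))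
  obtain ⟨m, F, hm1, hm2, hm3, hm4, hm5, hm6, hm7⟩ := hrun (f1, f2) (by
    intro t ht i j hij
    simp only
    rw [hf2' i t ht, hf2' j t ht]
    exact up_mono N (div_le_div_of_nonneg_right (w2 i j hij t ht) (w0 al t (V_of_mem ht))))
  -- reflection
  have hFal : ∀ b ∈ F, b < al := fun b hb => hFp b (hm4 hb)
  have hordm : OrdS k m (↑F ∪ Set.range a) := by
    rintro b (hb | ⟨i, rfl⟩) c (hc' | ⟨j, rfl⟩) hbc t ht hl
    · exact hm5 b hb c hc' hbc t ht hl
    · rcases Nat.lt_or_ge g t.length with h | h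
      · exact hord b (Or.inr (by exact_mod_cast hm4 hb)) (a j)
          (Or.inl (by exact_mod_cast haF0 j)) hbc t ht h
      · rw [hcopy _ (haF0 j) (hala j) t ht (by omega) h]
        exact hm6 b hb t ht hl h
    · exact absurd hbc (not_lt.2 ((hFal c hc').le.trans (hala i)))
    · exact ord_a i j (ha.lt_iff_lt.1 hbc) t ht (by omega)
  obtain ⟨a1, q1, q2, q3, q4, q5, q6⟩ := hR sh r a hc hr ha m F hFal
    (fun b hb j => (hFal b hb).trans_le (hala j)) hordm
  have hsuit : Suit k al (S al) sh r (k al) N m F (fun j => ex (f1 j)) a1 := by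
    refine ⟨q1, q2, (hS _).2 ⟨q4, hr, q2⟩, q3, ?_, ?_, q5⟩
    · intro j t ht
      rw [q6 j t (mem_TT.1 ht).1 ((mem_TT.1 ht).2.trans hm1)]
      exact (hf1 j t ht).symm
    · intro j t ht h1 h2
      rw [q6 j t ht h2]
      exact hcopy _ (haF0 j) (hala j) t ht h1 (by omega)
  obtain ⟨b, hb, l, c1, c2, c3, c4, c5, c6⟩ := hm7 ⟨a1, hsuit⟩
  obtain ⟨b1, b2, b3, b4, b5, b6, b7⟩ := hb
  have hbB := (hS _).1 b3
  refine ⟨_, hbB.1, hbB.2, ?_⟩
  refine hO (fun j => x (b j)) ?_ fun j t ht => hx.2.1 _ t ht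
  intro j t ht hl
  have hest := catch_est hk hx (al := al) (b := b j) (a := a j) (N := N) (l := l)
    (U := ex (f2 j)) (b2 j) (by omega)
    (by
      intro t ht hl
      have : t ∈ TT N := mem_TT.2 ⟨ht, hl⟩
      rw [b5 j t this]
      exact hf1 j t this)
    (by
      intro t ht h1 h2
      rcases Nat.lt_or_ge m t.length with h | h
      · exact c4 j t ht h h2
      · exact (b6 j t ht h1 h).symm.le)
    (by
      intro t ht h1
      rcases c5 t ht h1 with h | h
      · exact Or.inl (h j)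
      · exact Or.inr h)
    (by
      intro t ht h1
      rcases Nat.lt_or_ge g t.length with h | h
      · exact hord (b j) (Or.inr (by exact_mod_cast c3 j)) al (Or.inl (by simp [hF0])) (b2 j)
          t ht h
      · exact c6 j t ht h1 h)
    (fun t _ => (Gr_pos (ex_mem _ _)).le)
    (fun t _ => Gr_le_one (ex_mem _ _))
    (by
      intro t ht
      rw [hf2' j t ht]
      have h1 := w1 j t ht
      have h2 := w0 al t (V_of_mem ht)
      have h3 := w0 (a j) t (V_of_mem ht)
      rcases h2.eq_or_lt with h | h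
      · have : w (a j) t = 0 := by linarith
        change w (a j) t ≤ _ * w al t
        rw [this, ← h, mul_zero]
      · calc w (a j) t = w (a j) t / w al t * w al t := by field_simp
          _ ≤ _ := mul_le_mul_of_nonneg_right (le_up N _) h2)
    (by
      intro t ht
      rw [hf2' j t ht]
      have h1 := w1 j t ht
      have h2 := w0 al t (V_of_mem ht)
      have h3 := w0 (a j) t (V_of_mem ht)
      change _ * w al t ≤ w (a j) t + 1 / 2 ^ N * w al t
      rcases h2.eq_or_lt with h | h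
      · have : w (a j) t = 0 := by linarith
        rw [this, ← h, mul_zero, mul_zero, add_zero]
      · calc up N (w (a j) t / w al t) * w al t
            ≤ (w (a j) t / w al t + 1 / 2 ^ N) * w al t :=
              mul_le_mul_of_nonneg_right (up_le N (div_nonneg h3 h2)) h2
          _ = _ := by field_simp)
  have hgab : ga < b j := b4 ga hm3 j
  obtain ⟨M, hM⟩ := (Good.inv hg {ga, b j}).1
  have hWW : WW k x (b j) ≤ WW k x ga :=
    WW_anti hk hx hgab (hM ga (by simp) (b j) (by simp) hgab)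
  have h1 := hn1 N (by omega)
  refine (abs_sub_le_sum (hx.2.2.1 (b j)) (hx.2.2.1 (a j)) ht (show t.length ≤ N by omega)).trans_lt
    (hest.trans_lt ?_)
  linarith

end Pool.Agent.H12.Jayne
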