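import Pool.Agent.H12.Jayne.HL

/-!
# Clubs, guessing and reflection
-/

open Finset Cardinal

namespace Pool.Agent.H12.Jayne

variable {W : Type} [LinearOrder W]

/-- closed unbounded sets -/
def IsClub (C : Set W) : Prop :=
  (∀ b, ∃ c ∈ C, b < c) ∧
    ∀ al, (∃ b, b < al) → (∀ b < al, ∃ c ∈ C, b < c ∧ c < al) → al ∈ C

/-- guessing subsets of `W` -/
def DiamondW (W : Type) [LinearOrder W] : Prop :=
  ∃ A : W → Set W, ∀ X C : Set W, IsClub C → ∃ al ∈ C, ∀ b < al, (b ∈ A al ↔ b ∈ X)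

section sup

variable [WellFoundedLT W] (hb : ∀ A : Set W, A.Countable → ∃ b, ∀ a ∈ A, a < b)
include hb

lemma exists_lub (ga : ℕ → W) : ∃ d, (∀ n, ga n < d) ∧ ∀ b < d, ∃ n, b ≤ ga n := by
  obtain ⟨b, hb⟩ := hb (Set.range ga) (Set.countable_range _)
  have hne : {d | ∀ n, ga n < d}.Nonempty := ⟨b, fun n => hb _ ⟨n, rfl⟩⟩
  refine ⟨(wellFounded_lt (α := W)).min _ hne, (wellFounded_lt (α := W)).min_mem _ hne, ?_⟩
  intro c hc
  by_contra hcon
  push Not at hcon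
  exact (wellFounded_lt (α := W)).not_lt_min {d | ∀ n, ga n < d} (x := c) hcon hc

lemma closing {Q : Type} (rk h : Q → W) (hcount : ∀ al, {c | rk c < al}.Countable) :
    IsClub {al : W | ∀ c, rk c < al → h c < al} := by
  classical
  constructor
  · intro b
    have hstep : ∀ g : W, ∃ g', g < g' ∧ ∀ c, rk c < g → h c < g' := by
      intro g
      obtain ⟨d, hd⟩ := hb (insert g (h '' {c | rk c < g})) (((hcount g).image h).insert g)
      exact ⟨d, hd g (Set.mem_insert _ _), fun c hc =>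
        hd _ (Set.mem_insert_of_mem _ ⟨c, hc, rfl⟩)⟩
    choose nx hnx1 hnx2 using hstep
    obtain ⟨ga, hga0, hga⟩ : ∃ ga : ℕ → W, ga 0 = nx b ∧ ∀ n, ga (n + 1) = nx (ga n) :=
      ⟨fun n => Nat.rec (nx b) (fun _ g => nx g) n, rfl, fun _ => rfl⟩
    obtain ⟨d, hd1, hd2⟩ := exists_lub hb ga
    refine ⟨d, ?_, (hnx1 b).trans (by rw [← hga0]; exact hd1 0)⟩
    intro c hc
    obtain ⟨n, hn⟩ := hd2 _ hc
    have h1 : rk c < ga (n + 1) := hn.trans_lt (by rw [hga]; exact hnx1 _)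
    exact (hnx2 _ c h1).trans (by rw [← hga]; exact hd1 _)
  · intro al _ hal c hc
    obtain ⟨d, hd, h1, h2⟩ := hal _ hc
    exact (hd c h1).trans h2

lemma IsClub.inter {C D : Set W} (hC : IsClub C) (hD : IsClub D) : IsClub (C ∩ D) := by
  classical
  constructor
  · intro b
    choose f hf1 hf2 using hC.1
    choose g hg1 hg2 using hD.1
    obtain ⟨ga, hga0, hga⟩ : ∃ ga : ℕ → W, ga 0 = f b ∧ ∀ n, ga (n + 1) = f (g (ga n)) :=
      ⟨fun n => Nat.rec (f b) (fun _ x => f (g x)) n, rfl, fun _ => rfl⟩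
    have hgaC : ∀ n, ga n ∈ C := by
      intro n
      cases n with
      | zero => rw [hga0]; exact hf1 b
      | succ n => rw [hga]; exact hf1 _
    obtain ⟨d, hd1, hd2⟩ := exists_lub hb ga
    have hlt : ∀ n, ga n < ga (n + 1) := fun n => by
      rw [hga]; exact (hg2 _).trans (hf2 _)
    refine ⟨d, ⟨?_, ?_⟩, (hf2 b).trans (by rw [← hga0]; exact hd1 0)⟩
    · refine hC.2 d ⟨ga 0, hd1 0⟩ fun c hc => ?_
      obtain ⟨n, hn⟩ := hd2 c hc
      exact ⟨ga (n + 1), hgaC _, hn.trans_lt (hlt n), hd1 _⟩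
    · refine hD.2 d ⟨ga 0, hd1 0⟩ fun c hc => ?_
      obtain ⟨n, hn⟩ := hd2 c hc
      exact ⟨g (ga n), hg1 _, hn.trans_lt (hg2 _), (hf2 _).trans (by rw [← hga]; exact hd1 _)⟩
  · intro al hal h
    exact ⟨hC.2 al hal fun b hb => by
        obtain ⟨c, hc, h1⟩ := h b hb
        exact ⟨c, hc.1, h1⟩,
      hD.2 al hal fun b hb => by
        obtain ⟨c, hc, h1⟩ := h b hb
        exact ⟨c, hc.2, h1⟩⟩

omit [WellFoundedLT W] hb in
lemma IsClub.above {C : Set W} (hC : IsClub C) (b : W) : IsClub (C ∩ Set.Ioi b) := by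
  constructor
  · intro b'
    obtain ⟨c, hc, h⟩ := hC.1 (max b b')
    exact ⟨c, ⟨hc, (le_max_left _ _).trans_lt h⟩, (le_max_right _ _).trans_lt h⟩
  · intro al hal h
    refine ⟨hC.2 al hal fun b hb => ?_, ?_⟩
    · obtain ⟨c, hc, h1⟩ := h b hb
      exact ⟨c, hc.1, h1⟩
    · obtain ⟨x, hx⟩ := hal
      obtain ⟨c, hc, h1⟩ := h x hx
      exact lt_trans hc.2 h1.2

/-- guessing subsets of a set of size at most the size of `W` -/
lemma guess (hD : DiamondW W) {Q : Type} (rk q : Q → W) (hq : Function.Injective q)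
    (hcount : ∀ al, {c | rk c < al}.Countable) :
    ∃ S : W → Set Q, ∀ (B : Set Q) (C : Set W), IsClub C →
      ∃ al ∈ C, ∀ c, c ∈ S al ↔ c ∈ B ∧ rk c < al := by
  obtain ⟨A, hA⟩ := hD
  refine ⟨fun al => {c | rk c < al ∧ q c ∈ A al}, fun B C hC => ?_⟩
  obtain ⟨al, ⟨hal1, hal2⟩, hal3⟩ := hA (q '' B) _ (hC.inter hb (closing hb rk q hcount))
  refine ⟨al, hal1, fun c => ?_⟩
  constructor
  · rintro ⟨h1, h2⟩
    rw [hal3 _ (hal2 c h1)] at h2
    obtain ⟨c', hc', h3⟩ := h2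
    rw [← hq h3]
    exact ⟨hc', by rw [hq h3]; exact h1⟩
  · rintro ⟨h1, h2⟩
    exact ⟨h2, (hal3 _ (hal2 c h2)).2 ⟨c, h1, rfl⟩⟩

end sup

variable [OrderBot W]

/-- the rank of a code -/
noncomputable def rkC (c : Code W) : W := univ.sup c.r ⊔ univ.sup c.a

lemma rkC_lt {c : Code W} {al : W} (hal : al ≠ ⊥) : rkC c < al ↔ Below c al := by
  have h : ⊥ < al := bot_lt_iff_ne_bot.2 hal
  rw [rkC, sup_lt_iff, Finset.sup_lt_iff h, Finset.sup_lt_iff h]
  simp [Below]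

lemma countable_rkC (hc : ∀ al : W, (Set.Iio al).Countable) (al : W) :
    {c : Code W | rkC c < al}.Countable := by
  rcases eq_or_ne al ⊥ with rfl | hal
  · simp
  have : Countable ↥(Set.Iio al) := (hc al).to_subtype
  let f : (Σ sh : Shape, (Fin sh.s → ↥(Set.Iio al)) × (Fin sh.n → ↥(Set.Iio al))) → Code W :=
    fun p => ⟨p.1, fun i => p.2.1 i, fun j => p.2.2 j⟩
  refine (Set.countable_range f).mono ?_
  intro c hc
  have hB : Below c al := (rkC_lt hal).1 hc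
  exact ⟨⟨c.sh, fun i => ⟨c.r i, hB.1 i⟩, fun j => ⟨c.a j, hB.2 j⟩⟩, rfl⟩

omit [LinearOrder W] [OrderBot W] in
lemma exists_inj [Infinite W] : ∃ q : Code W → W, Function.Injective q := by
  have h1 : #(Code W) ≤ #(Shape × List W × List W) := by
    refine mk_le_of_injective (f := fun c => (c.sh, List.ofFn c.r, List.ofFn c.a)) ?_
    rintro ⟨sh, r, a⟩ ⟨sh', r', a'⟩ h
    simp only [Prod.mk.injEq] at h
    obtain ⟨rfl, h2, h3⟩ := h
    rw [List.ofFn_injective h2, List.ofFn_injective h3]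
  have h2 : #(Shape × List W × List W) ≤ #W := by
    rw [mk_prod, mk_prod]
    simp only [lift_id, mk_list_eq_mk]
    rw [mul_eq_self (aleph0_le_mk W)]
    refine (mul_le_mul_left (mk_le_aleph0 (α := Shape)) _).trans ?_
    rw [aleph0_mul_eq (aleph0_le_mk W)]
  obtain ⟨q⟩ := (Cardinal.le_def _ _).1 (h1.trans h2)
  exact ⟨q, q.injective⟩

section refl

variable [WellFoundedLT W] (hb : ∀ A : Set W, A.Countable → ∃ b, ∀ a ∈ A, a < b)
  (hc : ∀ al : W, (Set.Iio al).Countable)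
include hb hc

lemma refl_club {k : W → List ℕ → ℝ} (hk : Wts k) (B : Set (Code W)) :
    ∃ C : Set W, IsClub C ∧ ∀ al ∈ C, al ≠ ⊥ → Refl k B al := by
  classical
  let Q : Type := Σ sh : Shape, (Fin sh.s → W) ×
    (Σ m : ℕ, Finset W × (Fin sh.n → ↥(TT m) → ↥(Gr m)))
  let rk : Q → W := fun p => univ.sup p.2.1 ⊔ p.2.2.2.1.sup id
  let P : (p : Q) → (Fin p.1.n → W) → Prop := fun p a =>
    StrictMono a ∧ (∀ b ∈ p.2.2.2.1, ∀ j, b < a j) ∧ (⟨p.1, p.2.1, a⟩ : Code W) ∈ B ∧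
      OrdS k p.2.2.1 (↑p.2.2.2.1 ∪ Set.range a) ∧
      ∀ j, ∀ t ∈ TT p.2.2.1, k (a j) t = ex (p.2.2.2.2 j) t
  let h : Q → W := fun p => if hp : ∃ a, P p a then univ.sup hp.choose else ⊥
  have hcount : ∀ al, {c | rk c < al}.Countable := by
    intro al
    rcases eq_or_ne al ⊥ with rfl | hal
    · simp
    have hbot : ⊥ < al := bot_lt_iff_ne_bot.2 hal
    have : Countable ↥(Set.Iio al) := (hc al).to_subtype
    let f : (Σ sh : Shape, (Fin sh.s → ↥(Set.Iio al)) ×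
      (Σ m : ℕ, Finset ↥(Set.Iio al) × (Fin sh.n → ↥(TT m) → ↥(Gr m)))) → Q :=
      fun p => ⟨p.1, fun i => p.2.1 i, p.2.2.1,
        p.2.2.2.1.map (Function.Embedding.subtype _), p.2.2.2.2⟩
    refine (Set.countable_range f).mono ?_
    rintro ⟨sh, r, m, F, g⟩ hp
    have hp' : univ.sup r ⊔ F.sup id < al := hp
    rw [sup_lt_iff, Finset.sup_lt_iff hbot, Finset.sup_lt_iff hbot] at hp'
    obtain ⟨F', hF'⟩ := lift_finset (fun b hb => hp'.2 b hb)
    refine ⟨⟨sh, fun i => ⟨r i, hp'.1 i (mem_univ _)⟩, m, F', g⟩, ?_⟩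
    simp only [f, hF']
  refine ⟨_, closing hb rk h hcount, ?_⟩
  intro al hal hne sh r a haB hr ha m F hF hFa ho
  have hbot : ⊥ < al := bot_lt_iff_ne_bot.2 hne
  have hex : ∀ j, ∃ f : ↥(TT m) → ↥(Gr m), ∀ t ∈ TT m, ex f t = k (a j) t := fun j =>
    exists_ex _ fun t ht => Gr_mono (mem_TT.1 ht).2 (hk.gr (a j) t (mem_TT.1 ht).1)
  choose g hg using hex
  let p : Q := ⟨sh, r, m, F, g⟩
  have hp : ∃ a, P p a := ⟨a, ha, hFa, haB, ho, fun j t ht => (hg j t ht).symm⟩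
  have hrk : rk p < al := by
    change univ.sup r ⊔ F.sup id < al
    rw [sup_lt_iff, Finset.sup_lt_iff hbot, Finset.sup_lt_iff hbot]
    exact ⟨fun i _ => hr i, hF⟩
  have hh : h p < al := hal p hrk
  have hh' : h p = univ.sup hp.choose := dif_pos hp
  obtain ⟨e1, e2, e3, e4, e5⟩ := hp.choose_spec
  refine ⟨hp.choose, e1, fun j => ?_, e2, e3, e4, fun j t ht hl => ?_⟩
  · refine lt_of_le_of_lt ?_ hh
    rw [hh']
    exact le_sup (f := hp.choose) (mem_univ j)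
  · have htm : t ∈ TT m := mem_TT.2 ⟨ht, hl⟩
    rw [e5 j t htm]
    exact hg j t htm

end refl

end Pool.Agent.H12.Jayne
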