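import Pool.Agent.H12.Jayne.Rec

/-!
# The compact set is not separable
-/

open Finset

namespace Pool.Agent.H12.Jayne

lemma kill_zero {k mu : List ℕ → ℝ} (hpos : ∀ t, V t → 0 < k t) (hle : ∀ t, V t → k t ≤ 1)
    (h0 : ∀ t, 0 ≤ mu t) (hA : Add mu)
    (hkill : ∀ n, ∃ l, n ≤ l ∧ ∀ t ∈ T l,
      ∑ a ∈ range (l + 1), k (a :: t) * mu (a :: t) ≤ 3 / 4 * mu t) {e : ℝ} (he : 0 < e) :
    ∃ L, ∑ t ∈ T L, pr k t * mu t < e := by
  set E : ℕ → ℝ := fun L => ∑ t ∈ T L, pr k t * mu t with hE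
  have hE0 : ∀ L, 0 ≤ E L := fun L =>
    sum_nonneg fun t ht => mul_nonneg (pr_pos hpos (V_of_mem ht)).le (h0 t)
  have hsucc : ∀ L, E (L + 1) = ∑ s ∈ T L, pr k s *
      ∑ a ∈ range (L + 1), k (a :: s) * mu (a :: s) := by
    intro L
    simp only [hE]
    rw [sum_T_succ]
    refine sum_congr rfl fun s _ => ?_
    rw [mul_sum]
    refine sum_congr rfl fun a _ => ?_
    rw [pr_cons]; ring
  have hmono : ∀ L, E (L + 1) ≤ E L := by
    intro L
    rw [hsucc]
    refine sum_le_sum fun s hs => ?_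
    refine mul_le_mul_of_nonneg_left ?_ (pr_pos hpos (V_of_mem hs)).le
    rw [hA s (V_of_mem hs), length_of_mem hs]
    refine sum_le_sum fun a ha => ?_
    have hV := V_of_mem (cons_mem_T hs (mem_range.1 ha))
    calc k (a :: s) * mu (a :: s) ≤ 1 * mu (a :: s) :=
          mul_le_mul_of_nonneg_right (hle _ hV) (h0 _)
      _ = _ := one_mul _
  have hanti : Antitone E := antitone_nat_of_succ_le hmono
  have hbdd : BddBelow (Set.range E) := ⟨0, by rintro _ ⟨L, rfl⟩; exact hE0 L⟩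
  set I := ⨅ L, E L with hI
  have hI0 : 0 ≤ I := le_ciInf hE0
  by_contra hcon
  push Not at hcon
  have hIe : e ≤ I := le_ciInf hcon
  have hIpos : 0 < I := lt_of_lt_of_le he hIe
  obtain ⟨L, hL⟩ := exists_lt_of_ciInf_lt (show ⨅ L, E L < 4 / 3 * I by
    rw [← hI]; linarith)
  obtain ⟨l, hl, hkl⟩ := hkill L
  have h1 : E (l + 1) ≤ 3 / 4 * E l := by
    rw [hsucc]
    simp only [hE]
    rw [mul_sum]
    refine sum_le_sum fun s hs => ?_
    calc _ ≤ pr k s * (3 / 4 * mu s) :=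
          mul_le_mul_of_nonneg_left (hkl s hs) (pr_pos hpos (V_of_mem hs)).le
      _ = _ := by ring
  have h2 : E l ≤ E L := hanti hl
  have h3 : I ≤ E (l + 1) := ciInf_le hbdd _
  linarith

variable {W : Type} [LinearOrder W] [OrderBot W]

theorem vanish {S : W → Set (Code W)} {mu : W → ℕ → List ℕ → ℝ} {k : W → List ℕ → ℝ}
    (hg : ∀ al, Good S mu k al) {y : ℕ → W → List ℕ → ℝ} (hy : ∀ i, y i ∈ KK k) {al : W}
    (hal : al ≠ ⊥) (hmu : ∀ i, mu al i = y i ⊥) (i : ℕ) : y i al [] = 0 := by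
  have hk := Good.wts hg
  have hkill := (hg al).2.2.2.1 hal i
  rw [hmu i] at hkill
  have h1 := hkill (fun t => (hy i).1 ⊥ t) ((hy i).2.2.1 ⊥)
  apply le_antisymm _ ((hy i).1 al [])
  refine le_of_forall_pos_le_add fun e he => ?_
  obtain ⟨L, hL⟩ := kill_zero (hk.pos al) (hk.le_one al) (fun t => (hy i).1 ⊥ t)
    ((hy i).2.2.1 ⊥) h1 he
  rw [zero_add, ← sum_eq_nil ((hy i).2.2.1 al) L]
  refine le_trans (sum_le_sum fun t ht => ?_) hL.le
  exact le_pr_mul hk (hy i) al (V_of_mem ht)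

theorem exists_pos {S : W → Set (Code W)} {mu : W → ℕ → List ℕ → ℝ} {k : W → List ℕ → ℝ}
    (hg : ∀ al, Good S mu k al) (al : W) : ∃ y ∈ KK k, 0 < y al [] := by
  classical
  have hk := Good.wts hg
  have hz : ∀ t, ∃ a, V t → a ≤ t.length ∧ k al (a :: t) = 1 := by
    intro t
    by_cases ht : V t
    · obtain ⟨a, h1, h2⟩ := (hg al).2.2.1 t ht
      exact ⟨a, fun _ => ⟨h1, h2⟩⟩
    · exact ⟨0, fun h => absurd h ht⟩
  choose c hc using hz
  obtain ⟨ρ, hρ0, hρs⟩ : ∃ ρ : ℕ → List ℕ, ρ 0 = [] ∧ ∀ n, ρ (n + 1) = c (ρ n) :: ρ n :=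
    ⟨fun n => Nat.rec [] (fun _ t => c t :: t) n, rfl, fun _ => rfl⟩
  have hρl : ∀ n, (ρ n).length = n := by
    intro n
    induction n with
    | zero => rw [hρ0]; rfl
    | succ n ih => rw [hρs, List.length_cons, ih]
  have hρV : ∀ n, V (ρ n) := by
    intro n
    induction n with
    | zero => rw [hρ0]; exact V_nil
    | succ n ih => rw [hρs]; exact ⟨(hc _ ih).1, ih⟩
  have hρ1 : ∀ n, k al (ρ (n + 1)) = 1 := fun n => by rw [hρs]; exact (hc _ (hρV n)).2
  have hres : ∀ n L, n ≤ L → res n (ρ L) = ρ n := by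
    intro n L h
    induction L, h using Nat.le_induction with
    | base => exact res_self (hρl n)
    | succ L hL ih => rw [hρs, res_cons (by rw [hρl]; exact hL), ih]
  -- limits of the products
  have hM : ∀ b, ∃ M, b ≤ al → ∀ n, M ≤ n → pr (k b) (ρ n) = pr (k b) (ρ M) := by
    intro b
    obtain ⟨M, hM⟩ := (Good.inv hg {b, al}).1
    refine ⟨M, fun hb n hn => ?_⟩
    induction n, hn using Nat.le_induction with
    | base => rfl
    | succ n hn ih =>
      rw [hρs, pr_cons, ← hρs, ih]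
      have h1 : k b (ρ (n + 1)) = 1 := by
        rcases hb.eq_or_lt with rfl | hb
        · exact hρ1 n
        · apply le_antisymm (hk.le_one b _ (hρV (n + 1)))
          rw [← hρ1 n]
          exact hM b (by simp) al (by simp) hb _ (hρV _) (by rw [hρl]; omega)
      rw [h1, one_mul]
  choose M hM using hM
  set κ : W → ℝ := fun b => pr (k b) (ρ (M b)) with hκ
  have hκpos : ∀ b, 0 < κ b := fun b => hk.ppos b (hρV _)
  obtain ⟨y, hy1, hy0⟩ : ∃ y : W → List ℕ → ℝ,
      (∀ b t, b ≤ al ∧ t = ρ t.length → y b t = κ b) ∧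
      (∀ b t, ¬ (b ≤ al ∧ t = ρ t.length) → y b t = 0) :=
    ⟨fun b t => if b ≤ al ∧ t = ρ t.length then κ b else 0, fun b t h => if_pos h,
      fun b t h => if_neg h⟩
  have hyn : ∀ b t, 0 ≤ y b t := by
    intro b t
    by_cases h : b ≤ al ∧ t = ρ t.length
    · rw [hy1 b t h]; exact (hκpos b).le
    · rw [hy0 b t h]
  refine ⟨y, ⟨hyn, ?_, ?_, ?_, ?_⟩, ?_⟩
  · intro b t ht
    rw [hy0]
    rintro ⟨-, h⟩
    rw [h] at ht
    exact ht (hρV _)
  · intro b t ht
    by_cases hb : b ≤ al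
    swap
    · rw [hy0 b t (fun h => hb h.1)]
      symm
      exact sum_eq_zero fun a _ => hy0 b _ (fun h => hb h.1)
    by_cases h : t = ρ t.length
    · rw [hy1 b t ⟨hb, h⟩, sum_eq_single (c t)]
      · rw [hy1]
        refine ⟨hb, ?_⟩
        rw [List.length_cons, hρs, ← h]
      · intro a _ ha
        rw [hy0]
        rintro ⟨-, h'⟩
        rw [List.length_cons, hρs, ← h] at h'
        exact ha (List.cons.inj h').1
      · intro hn
        exact absurd (mem_range.2 (by have := (hc t ht).1; omega)) hn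
    · rw [hy0 b t (fun h' => h h'.2)]
      symm
      refine sum_eq_zero fun a _ => hy0 b _ ?_
      rintro ⟨-, h'⟩
      rw [List.length_cons, hρs] at h'
      exact h (List.cons.inj h').2
  · rw [hy1 ⊥ [] ⟨bot_le, hρ0.symm⟩]
    exact hk.pbot (hρV _)
  · intro b c' hbc t ht ho
    by_cases hc' : c' ≤ al ∧ t = ρ t.length
    swap
    · rw [hy0 _ _ hc', mul_zero]
      exact mul_nonneg (hk.ppos _ ht).le (hyn _ _)
    · rw [hy1 _ _ hc', hy1 _ _ ⟨hbc.le.trans hc'.1, hc'.2⟩]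
      set n := t.length with hn
      set L := max n (max (M b) (M c')) with hL
      have h1 := pr_ratio (hk.pos b) (hk.pos c') (N := n) (L := L)
        (fun t ht h1 _ => ho t ht h1) (hρV L) (by rw [hρl]; omega) (hρl L).le
      rw [hres n L (by omega), hM b (hbc.le.trans hc'.1) L (by omega),
        hM c' hc'.1 L (by omega), ← hc'.2] at h1
      change pr (k b) t * κ c' ≤ pr (k c') t * κ b
      calc pr (k b) t * κ c' = κ c' * pr (k b) t := mul_comm _ _
        _ ≤ κ b * pr (k c') t := h1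
        _ = _ := mul_comm _ _
  · rw [hy1 al [] ⟨le_rfl, hρ0.symm⟩]
    exact hκpos al

end Pool.Agent.H12.Jayne
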