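import Pool.Agent.H12.Jayne.Club
import Pool.Agent.H12.Jayne.NonSep

/-!
# The example
-/

open Finset

namespace Pool.Agent.H12.Jayne

variable {W : Type} [LinearOrder W] [OrderBot W] [WellFoundedLT W]

omit [LinearOrder W] [OrderBot W] [WellFoundedLT W] in
lemma continuous_ev (c : Code W) : Continuous fun x : W → List ℕ → ℝ => ev c x := by
  unfold ev
  fun_prop

theorem perfectlyNormal_of_guess {S : W → Set (Code W)} {mu : W → ℕ → List ℕ → ℝ}
    {k : W → List ℕ → ℝ} (hb : ∀ A : Set W, A.Countable → ∃ b, ∀ a ∈ A, a < b)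
    (hc : ∀ al : W, (Set.Iio al).Countable) (hg : ∀ al, Good S mu k al)
    (hS : ∀ (B : Set (Code W)) (C : Set W), IsClub C →
      ∃ al ∈ C, ∀ c, c ∈ S al ↔ c ∈ B ∧ rkC c < al) :
    PerfectlyNormalSpace ↥(KK k) := by
  classical
  have hk := Good.wts hg
  have : CompactSpace ↥(KK k) := isCompact_iff_compactSpace.1 (isCompact_KK hk)
  refine ⟨fun Z hZ => ?_⟩
  obtain ⟨F, hF, hFZ⟩ := isClosed_induced_iff.1 hZ
  set U : Set (W → List ℕ → ℝ) := Fᶜ with hU
  have hUo : IsOpen U := hF.isOpen_compl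
  obtain ⟨C, hC, hCR⟩ := refl_club hb hc hk (BB k U)
  have hstep : ∀ b : W, ∃ al, b < al ∧ (∀ c : Code W, c ∈ S al ↔ c ∈ BB k U ∧ Below c al) ∧
      Refl k (BB k U) al := by
    intro b
    obtain ⟨al, ⟨h1, h2⟩, h3⟩ := hS (BB k U) _ (hC.above b)
    have hne : al ≠ ⊥ := (bot_le.trans_lt h2).ne'
    refine ⟨al, h2, fun c => ?_, hCR al h1 hne⟩
    rw [h3 c, rkC_lt hne]
  choose nx hnx1 hnx2 hnx3 using hstep
  obtain ⟨al, hal0, hal1⟩ : ∃ al : ℕ → W, al 0 = nx ⊥ ∧ ∀ n, al (n + 1) = nx (al n) :=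
    ⟨fun n => Nat.rec (nx ⊥) (fun _ g => nx g) n, rfl, fun _ => rfl⟩
  have hmono : StrictMono al := strictMono_nat_of_lt_succ fun n => by rw [hal1]; exact hnx1 _
  have hal2 : ∀ i, ∃ b, al i = nx b := by
    intro i
    cases i with
    | zero => exact ⟨_, hal0⟩
    | succ i => exact ⟨_, hal1 i⟩
  have hal3 : ∀ i, ∀ c : Code W, c ∈ S (al i) ↔ c ∈ BB k U ∧ Below c (al i) := by
    intro i
    obtain ⟨b, hb⟩ := hal2 i
    rw [hb]; exact hnx2 b
  have hal4 : ∀ i, Refl k (BB k U) (al i) := by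
    intro i
    obtain ⟨b, hb⟩ := hal2 i
    rw [hb]; exact hnx3 b
  set D : Set (Code W) := {c | c ∈ BB k U ∧ ∃ i, Below c (al i)} with hD
  have hDc : D.Countable := by
    have h1 : D ⊆ ⋃ i, {c : Code W | rkC c < al i} := by
      rintro c ⟨-, i, hi⟩
      have hne : al i ≠ ⊥ := by
        obtain ⟨b, hb⟩ := hal2 i
        rw [hb]; exact (bot_le.trans_lt (hnx1 b)).ne'
      exact Set.mem_iUnion.2 ⟨i, (rkC_lt hne).2 hi⟩
    exact (Set.countable_iUnion fun i => countable_rkC hc (al i)).mono h1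
  have hZeq : Z = ⋂ c ∈ D, {x : ↥(KK k) | ev c x.1 ∉ (c.sh.O : Set _)} := by
    ext x
    simp only [Set.mem_iInter, Set.mem_ofPred_eq]
    rw [← hFZ]
    constructor
    · intro hx c hcD hev
      exact hcD.1 x.1 x.2 hev hx
    · intro h
      by_contra hx
      obtain ⟨c, hc1, hc2, hc3⟩ := cover hg hUo hmono hal3 hal4 x.2 (show x.1 ∈ U from hx)
      exact h c ⟨hc1, hc2⟩ hc3
  rw [hZeq]
  refine IsGδ.biInter hDc fun c _ => ?_
  have hcl : IsClosed ((c.sh.O : Set (ZZ c.sh.s c.sh.n))ᶜ) :=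
    (TopologicalSpace.isOpen_of_mem_countableBasis c.sh.O.2).isClosed_compl
  exact (hcl.isGδ).preimage ((continuous_ev c).comp continuous_subtype_val)

theorem exists_example (hD : DiamondW W) (hb : ∀ A : Set W, A.Countable → ∃ b, ∀ a ∈ A, a < b)
    (hc : ∀ al : W, (Set.Iio al).Countable) :
    ∃ K : Set (W → List ℕ → ℝ), IsCompact K ∧ Convex ℝ K ∧ PerfectlyNormalSpace ↥K ∧
      ¬ TopologicalSpace.SeparableSpace ↥K := by
  classical
  have hinf : Infinite W := by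
    by_contra h
    rw [not_infinite_iff_finite] at h
    obtain ⟨b, hb⟩ := hb Set.univ (Set.to_countable _)
    exact lt_irrefl _ (hb b trivial)
  obtain ⟨q, hq⟩ := exists_inj (W := W)
  obtain ⟨S, hS⟩ := guess hb hD rkC q hq (countable_rkC hc)
  -- guessing sequences of measures
  obtain ⟨q2, hq2⟩ : ∃ q2 : ℕ × List ℕ × ℚ → W, Function.Injective q2 := by
    obtain ⟨f, hf⟩ := exists_injective_nat (ℕ × List ℕ × ℚ)
    exact ⟨fun p => Infinite.natEmbedding W (f p), (Infinite.natEmbedding W).injective.comp hf⟩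
  obtain ⟨S2, hS2⟩ := guess hb hD (fun _ : ℕ × List ℕ × ℚ => (⊥ : W)) q2 hq2
    (fun al => Set.to_countable _)
  let mu : W → ℕ → List ℕ → ℝ := fun al i t => sSup {r : ℝ | ∃ p : ℚ, (i, t, p) ∈ S2 al ∧ r = p}
  have hmu : ∀ y : ℕ → List ℕ → ℝ, ∃ al ≠ ⊥, ∀ i, mu al i = y i := by
    intro y
    have hclub : IsClub (Set.univ : Set W) := by
      refine ⟨fun b => ?_, fun al _ _ => trivial⟩
      obtain ⟨c, hc⟩ := hb {b} (Set.countable_singleton b)
      exact ⟨c, trivial, hc b rfl⟩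
    obtain ⟨al, ⟨-, h1⟩, h2⟩ := hS2 {p | (p.2.2 : ℝ) < y p.1 p.2.1} _ (hclub.above ⊥)
    have hne : al ≠ ⊥ := (show (⊥ : W) < al from h1).ne'
    refine ⟨al, hne, fun i => ?_⟩
    funext t
    have h3 : {r : ℝ | ∃ p : ℚ, (i, t, p) ∈ S2 al ∧ r = p} = {r : ℝ | ∃ p : ℚ, (p : ℝ) < y i t ∧
        r = p} := by
      ext r
      simp only [Set.mem_ofPred_eq]
      refine exists_congr fun p => and_congr_left fun _ => ?_
      rw [h2]
      exact and_iff_left h1
    change sSup _ = _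
    rw [h3]
    refine csSup_eq_of_forall_le_of_forall_lt_exists_gt ?_ ?_ ?_
    · obtain ⟨p, hp⟩ := exists_rat_lt (y i t)
      exact ⟨p, p, hp, rfl⟩
    · rintro r ⟨p, hp, rfl⟩
      exact hp.le
    · intro w hw
      obtain ⟨p, hp1, hp2⟩ := exists_rat_btwn hw
      exact ⟨p, ⟨p, hp2, rfl⟩, hp1⟩
  obtain ⟨k, hg⟩ := exists_good hc S mu
  have hk := Good.wts hg
  refine ⟨KK k, isCompact_KK hk, convex_KK k, perfectlyNormal_of_guess hb hc hg hS, ?_⟩
  intro hsep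
  obtain ⟨y0, hy0, -⟩ := exists_pos hg ⊥
  have : Nonempty ↥(KK k) := ⟨⟨y0, hy0⟩⟩
  obtain ⟨y, hy⟩ := TopologicalSpace.exists_dense_seq ↥(KK k)
  obtain ⟨al, hal, h1⟩ := hmu fun i => (y i).1 ⊥
  obtain ⟨z, hz, hzpos⟩ := exists_pos hg al
  have hopen : IsOpen {x : ↥(KK k) | 0 < x.1 al []} := by
    have : Continuous fun x : ↥(KK k) => x.1 al [] :=
      (continuous_apply _).comp ((continuous_apply al).comp continuous_subtype_val)
    exact isOpen_lt continuous_const this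
  obtain ⟨i, hi⟩ := hy.exists_mem_open hopen ⟨⟨z, hz⟩, hzpos⟩
  have := vanish hg (fun i => (y i).2) hal h1 i
  exact absurd this (ne_of_gt hi)

end Pool.Agent.H12.Jayne
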