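import Pool.Agent.H12.Jayne.Catch

/-!
# Open subsets of the compact set are determined by countably many coordinates
-/

open Finset Filter Topology

namespace Pool.Agent.H12.Jayne

lemma nhd1 {A : Set (List ℕ → ℝ)} (hA : IsOpen A) {y : List ℕ → ℝ} (hy : y ∈ A) :
    ∀ᶠ N : ℕ in atTop, ∀ z : List ℕ → ℝ,
      (∀ t, V t → t.length ≤ N → |z t - y t| < 1 / ((N : ℝ) + 1)) →
      (∀ t, ¬ V t → z t = y t) → z ∈ A := by
  obtain ⟨J, w, hw, hsub⟩ := isOpen_pi_iff.1 hA y hy
  have h1 : ∀ t ∈ J, ∀ᶠ N : ℕ in atTop, t.length ≤ N ∧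
      Metric.ball (y t) (1 / ((N : ℝ) + 1)) ⊆ w t := by
    intro t ht
    obtain ⟨e, he, hball⟩ := Metric.isOpen_iff.1 (hw t ht).1 (y t) (hw t ht).2
    have h2 : ∀ᶠ N : ℕ in atTop, 1 / ((N : ℝ) + 1) < e :=
      (tendsto_one_div_add_atTop_nhds_zero_nat).eventually_lt_const he
    filter_upwards [h2, eventually_ge_atTop t.length] with N h3 h4
    exact ⟨h4, (Metric.ball_subset_ball h3.le).trans hball⟩
  have h2 := (Filter.eventually_all_finset J).2 h1
  filter_upwards [h2] with N hN z hz1 hz2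
  refine hsub fun t ht => ?_
  obtain ⟨h3, h4⟩ := hN t ht
  by_cases hV : V t
  · refine h4 ?_
    rw [Metric.mem_ball, Real.dist_eq]
    exact hz1 t hV h3
  · rw [hz2 t hV]; exact (hw t ht).2

lemma nhd2 {n : ℕ} {A : Set (Fin n → List ℕ → ℝ)} (hA : IsOpen A) {y : Fin n → List ℕ → ℝ}
    (hy : y ∈ A) :
    ∃ N : ℕ, ∀ z : Fin n → List ℕ → ℝ,
      (∀ j t, V t → t.length ≤ N → |z j t - y j t| < 1 / ((N : ℝ) + 1)) →
      (∀ j t, ¬ V t → z j t = y j t) → z ∈ A := by
  obtain ⟨J, w, hw, hsub⟩ := isOpen_pi_iff.1 hA y hy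
  have h1 : ∀ j ∈ J, _ := fun j hj => nhd1 (hw j hj).1 (hw j hj).2
  obtain ⟨N, hN⟩ := ((Filter.eventually_all_finset J).2 h1).exists
  exact ⟨N, fun z hz1 hz2 => hsub fun j hj => hN j hj (z j) (hz1 j) (hz2 j)⟩

variable {W : Type} [LinearOrder W] [OrderBot W]

/-- the codes of the basic open sets whose trace on the compact set is contained in `U` -/
def BB (k : W → List ℕ → ℝ) (U : Set (W → List ℕ → ℝ)) : Set (Code W) :=
  {c | ∀ x ∈ KK k, ev c x ∈ (c.sh.O : Set _) → x ∈ U}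

theorem cover {S : W → Set (Code W)} {mu : W → ℕ → List ℕ → ℝ} {k : W → List ℕ → ℝ}
    (hg : ∀ al, Good S mu k al) {U : Set (W → List ℕ → ℝ)} (hU : IsOpen U)
    {al : ℕ → W} (hal : StrictMono al)
    (hS : ∀ i, ∀ c : Code W, c ∈ S (al i) ↔ c ∈ BB k U ∧ Below c (al i))
    (hR : ∀ i, Refl k (BB k U) (al i)) {x : W → List ℕ → ℝ} (hx : x ∈ KK k) (hxU : x ∈ U) :
    ∃ c ∈ BB k U, (∃ i, Below c (al i)) ∧ ev c x ∈ (c.sh.O : Set _) := by
  classical
  have hk := Good.wts hg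
  obtain ⟨I, u, hu, hsub⟩ := isOpen_pi_iff.1 hU x hxU
  -- splitting of the coordinates
  obtain ⟨i0, hi0⟩ : ∃ i0, ∀ b ∈ I, b < al i0 ∨ ∀ i, al i ≤ b := by
    have h1 : ∀ b ∈ I, ∀ᶠ i0 in atTop, b < al i0 ∨ ∀ i, al i ≤ b := by
      intro b _
      by_cases h : ∃ i, b < al i
      · obtain ⟨i, hi⟩ := h
        filter_upwards [eventually_ge_atTop i] with i' hi'
        exact Or.inl (hi.trans_le (hal.monotone hi'))
      · push Not at h
        exact Eventually.of_forall fun _ => Or.inr h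
    exact ((Filter.eventually_all_finset I).2 h1).exists
  set I1 := I.filter (· < al i0) with hI1
  set I2 := I.filter (fun b => ¬ b < al i0) with hI2
  set r : Fin #I1 → W := fun i => I1.orderEmbOfFin rfl i with hr
  set a : Fin #I2 → W := fun i => I2.orderEmbOfFin rfl i with ha
  have hrm : ∀ i, r i ∈ I1 := fun i => orderEmbOfFin_mem _ _ _
  have ham : ∀ j, a j ∈ I2 := fun j => orderEmbOfFin_mem _ _ _
  have hrs : ∀ b ∈ I1, ∃ i, r i = b := by
    intro b hb
    have : b ∈ Set.range (I1.orderEmbOfFin rfl) := by rw [range_orderEmbOfFin]; exact hb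
    exact this
  have has : ∀ b ∈ I2, ∃ j, a j = b := by
    intro b hb
    have : b ∈ Set.range (I2.orderEmbOfFin rfl) := by rw [range_orderEmbOfFin]; exact hb
    exact this
  set O' : Set (ZZ #I1 #I2) :=
    (Set.pi Set.univ fun i => u (r i)) ×ˢ (Set.pi Set.univ fun j => u (a j)) with hO'
  have hO'open : IsOpen O' :=
    (isOpen_set_pi Set.finite_univ fun i _ => (hu _ (mem_of_mem_filter _ (hrm i))).1).prod
      (isOpen_set_pi Set.finite_univ fun j _ => (hu _ (mem_of_mem_filter _ (ham j))).1)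
  have hmem : ((fun i => x (r i), fun j => x (a j)) : ZZ #I1 #I2) ∈ O' :=
    ⟨fun i _ => (hu _ (mem_of_mem_filter _ (hrm i))).2,
      fun j _ => (hu _ (mem_of_mem_filter _ (ham j))).2⟩
  obtain ⟨O, hOb, hO1, hO2⟩ := (TopologicalSpace.isBasis_countableBasis
    (ZZ #I1 #I2)).exists_subset_of_mem_open hmem hO'open
  set sh : Shape := ⟨#I1, #I2, ⟨O, hOb⟩⟩ with hsh
  have hcB : (⟨sh, r, a⟩ : Code W) ∈ BB k U := by
    intro y _ hy
    refine hsub fun b hb => ?_
    have hy' := hO2 hy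
    by_cases h : b < al i0
    · obtain ⟨i, hi⟩ := hrs b (mem_filter.2 ⟨hb, h⟩)
      rw [← hi]; exact hy'.1 i trivial
    · obtain ⟨j, hj⟩ := has b (mem_filter.2 ⟨hb, h⟩)
      rw [← hj]; exact hy'.2 j trivial
  have hOopen : IsOpen O := TopologicalSpace.isOpen_of_mem_countableBasis hOb
  -- a neighbourhood
  have hsec : IsOpen {v : Fin #I2 → List ℕ → ℝ | ((fun i => x (r i), v) : ZZ #I1 #I2) ∈ O} :=
    hOopen.preimage (by fun_prop : Continuous fun v : Fin #I2 → List ℕ → ℝ =>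
      ((fun i => x (r i), v) : ZZ #I1 #I2))
  obtain ⟨n0, hn0⟩ := nhd2 hsec hO1
  set e : ℝ := 1 / ((n0 : ℝ) + 1) with he
  have hepos : 0 < e := by positivity
  -- a small jump
  obtain ⟨i, hi, hj⟩ : ∃ i, i0 ≤ i ∧ WW k x (al i) - WW k x (al (i + 1)) < e / 4 := by
    by_contra hcon
    push Not at hcon
    have h1 : ∀ m : ℕ, WW k x (al (i0 + m)) ≤ WW k x (al i0) - m * (e / 4) := by
      intro m
      induction m with
      | zero => simp
      | succ m ih =>
        have := hcon (i0 + m) (by omega)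
        push_cast
        rw [← add_assoc]
        linarith
    obtain ⟨m, hm⟩ := exists_nat_gt (1 / (e / 4))
    have h2 := h1 m
    have h3 := WW_nonneg hk hx (al (i0 + m))
    have h4 := WW_le_one hk hx (al i0)
    rw [div_lt_iff₀ (by positivity)] at hm
    linarith
  have hlt : al i < al (i + 1) := hal (Nat.lt_succ_self i)
  obtain ⟨c, hc1, hc2, hc3⟩ := catch_pt hg hx hlt (hS (i + 1)) (hR (i + 1)) hcB
    (fun i' => ((mem_filter.1 (hrm i')).2).trans_le (hal.monotone (by omega)))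
    (I2.orderEmbOfFin rfl).strictMono
    (fun j => by
      rcases hi0 _ (mem_of_mem_filter _ (ham j)) with h | h
      · exact absurd h (mem_filter.1 (ham j)).2
      · exact h _) hepos (n0 := n0)
    (fun v hv1 hv2 => hn0 v hv1 fun j t ht => by rw [hv2 j t ht, hx.2.1 _ t ht]) hj
  exact ⟨c, hc1, ⟨i + 1, hc2⟩, hc3⟩

end Pool.Agent.H12.Jayne
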