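import Pool.Agent.H12.Jayne.KSet

/-!
# Codes of basic open sets, runs, and the invariants of the construction
-/

open Finset

namespace Pool.Agent.H12.Jayne

/-- the space of the tuples of coordinates -/
abbrev ZZ (s n : ℕ) : Type := (Fin s → List ℕ → ℝ) × (Fin n → List ℕ → ℝ)

/-- the shape of a basic open set -/
structure Shape where
  /-- number of fixed coordinates -/
  s : ℕ
  /-- number of moving coordinates -/
  n : ℕ
  /-- a basic open set -/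
  O : ↥(TopologicalSpace.countableBasis (ZZ s n))

/-- a code of a basic open set: a shape and the coordinates -/
structure Code (W : Type) where
  /-- the shape -/
  sh : Shape
  /-- the fixed coordinates -/
  r : Fin sh.s → W
  /-- the moving coordinates -/
  a : Fin sh.n → W

/-- all valid nodes of length at most `N` -/
def TT (N : ℕ) : Finset (List ℕ) := (range (N + 1)).biUnion T

lemma mem_TT {N : ℕ} {t : List ℕ} : t ∈ TT N ↔ V t ∧ t.length ≤ N := by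
  simp only [TT, mem_biUnion, mem_range, mem_T]
  constructor
  · rintro ⟨a, h1, h2, rfl⟩; exact ⟨h2, by omega⟩
  · rintro ⟨h1, h2⟩; exact ⟨_, by omega, h1, rfl⟩

/-- extension of a function on `TT N` -/
noncomputable def ex {N : ℕ} (f : ↥(TT N) → ↥(Gr N)) : List ℕ → ℝ :=
  fun t => if h : t ∈ TT N then (f ⟨t, h⟩ : ℝ) else 1

lemma ex_mem {N : ℕ} (f : ↥(TT N) → ↥(Gr N)) (t : List ℕ) : ex f t ∈ Gr N := by
  unfold ex
  split_ifs with h
  · exact (f _).2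
  · exact one_mem_Gr N

lemma exists_ex {N : ℕ} (g : List ℕ → ℝ) (hg : ∀ t ∈ TT N, g t ∈ Gr N) :
    ∃ f : ↥(TT N) → ↥(Gr N), ∀ t ∈ TT N, ex f t = g t := by
  refine ⟨fun t => ⟨g t, hg t t.2⟩, fun t ht => ?_⟩
  unfold ex
  rw [dif_pos ht]

/-- the tasks: a pattern and a table of values -/
abbrev Task (n N : ℕ) : Type :=
  (Fin n → ↥(TT N) → ↥(Gr N)) × (Fin n → ↥(TT N) → ↥(Gr N))

variable {W : Type} [LinearOrder W]

/-- the tuple `a` is suitable for the pattern `p` -/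
def Suit (k : W → List ℕ → ℝ) (al : W) (S : Set (Code W)) (sh : Shape) (r : Fin sh.s → W)
    (h : List ℕ → ℝ) (N m : ℕ) (F : Finset W) (p : Fin sh.n → List ℕ → ℝ)
    (a : Fin sh.n → W) : Prop :=
  StrictMono a ∧ (∀ j, a j < al) ∧ (⟨sh, r, a⟩ : Code W) ∈ S ∧ (∀ b ∈ F, ∀ j, b < a j) ∧
    (∀ j, ∀ t ∈ TT N, k (a j) t = p j t) ∧
    (∀ j, ∀ t, V t → N < t.length → t.length ≤ m → k (a j) t = h t) ∧
    OrdS k m (↑F ∪ Set.range a)

/-- the tuple `a` is caught with the table `U` -/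
def Caught {n : ℕ} (k : W → List ℕ → ℝ) (h : List ℕ → ℝ) (N m g : ℕ) (Fp : Finset W)
    (U : Fin n → List ℕ → ℝ) (a : Fin n → W) : Prop :=
  ∃ l, m ≤ l ∧ l < g ∧ (∀ j, a j ∈ Fp) ∧
    (∀ j, ∀ t, V t → m < t.length → t.length ≤ l → h t ≤ k (a j) t) ∧
    (∀ t, V t → t.length = l + 1 → (∀ j, k (a j) t = U j (res N t)) ∨ h t ≤ 1 / 2) ∧
    (∀ j, ∀ t, V t → l + 1 < t.length → t.length ≤ g → h t ≤ k (a j) t)

/-- a task is handled -/
def Handled (k : W → List ℕ → ℝ) (al : W) (S : Set (Code W)) (sh : Shape) (r : Fin sh.s → W)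
    (ga : W) (h : List ℕ → ℝ) (N g : ℕ) (Fp : Finset W) (th : Task sh.n N) : Prop :=
  (∀ t ∈ T N, Antitone fun j => ex (th.2 j) t) →
    ∃ m F, N ≤ m ∧ m ≤ g ∧ ga ∈ F ∧ F ⊆ Fp ∧ OrdS k m (↑F : Set W) ∧
      (∀ b ∈ F, ∀ t, V t → m < t.length → t.length ≤ g → h t ≤ k b t) ∧
      ((∃ a, Suit k al S sh r h N m F (fun j => ex (th.1 j)) a) →
        ∃ a, Suit k al S sh r h N m F (fun j => ex (th.1 j)) a ∧
          Caught k h N m g Fp (fun j => ex (th.2 j)) a)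

/-- a run -/
def Run (k : W → List ℕ → ℝ) (al : W) (S : Set (Code W)) (sh : Shape) (r : Fin sh.s → W)
    (ga : W) (h : List ℕ → ℝ) (N g : ℕ) (Fp : Finset W) : Prop :=
  N ≤ g ∧ (∀ b ∈ Fp, b < al) ∧ ∀ th : Task sh.n N, Handled k al S sh r ga h N g Fp th

variable [OrderBot W]

/-- richness of a finite set at a level -/
def Rich (k : W → List ℕ → ℝ) (j l : ℕ) (F : Finset W) : Prop :=
  ∀ s ∈ T l, ∀ g : W → ℝ, g ⊥ = 1 → (∀ b ∈ F, g b ∈ Gr j) →
    (∀ b ∈ F, ∀ c ∈ F, b ≤ c → g c ≤ g b) →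
    j ≤ #{a ∈ range (l + 1) | ∀ b ∈ F, k b (a :: s) = g b}

/-- the invariant for a finite set -/
def Inv (k : W → List ℕ → ℝ) (S : W → Set (Code W)) (F : Finset W) : Prop :=
  (∃ m, OrdS k m (↑F : Set W)) ∧ (∀ j n, ∃ l, n ≤ l ∧ Rich k j l F) ∧
    ∀ al ∈ F, al ≠ ⊥ → ∀ (sh : Shape) (r : Fin sh.s → W), (∀ i, r i < al) → ∀ ga < al, ∀ n,
      ∃ N g Fp, n ≤ N ∧ Run k al (S al) sh r ga (k al) N g Fp ∧
        (∀ b ∈ F, al ≤ b → ∀ t, V t → N < t.length → t.length ≤ g → k b t = k al t) ∧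
        OrdS k g ((↑F : Set W) ∪ ↑Fp)

/-- the properties of the weights of `al` -/
def Good (S : W → Set (Code W)) (mu : W → ℕ → List ℕ → ℝ) (k : W → List ℕ → ℝ) (al : W) :
    Prop :=
  (∀ t, V t → k al t ∈ Gr t.length) ∧ (al = ⊥ → ∀ t, V t → k al t = 1) ∧
  (∀ t, V t → ∃ a ≤ t.length, k al (a :: t) = 1) ∧
  (al ≠ ⊥ → ∀ i, (∀ t, 0 ≤ mu al i t) → Add (mu al i) → ∀ n, ∃ l, n ≤ l ∧ ∀ t ∈ T l,
    ∑ a ∈ range (l + 1), k al (a :: t) * mu al i (a :: t) ≤ 3 / 4 * mu al i t) ∧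
  ∀ F : Finset W, (∀ b ∈ F, b ≤ al) → Inv k S F

/-! ### Locality -/

section congr

omit [OrderBot W]

lemma OrdS.congr {k k' : W → List ℕ → ℝ} {m : ℕ} {A : Set W} (h : OrdS k m A)
    (hk : ∀ b ∈ A, k b = k' b) : OrdS k' m A := by
  intro b hb c hc hbc t ht hm
  rw [← hk b hb, ← hk c hc]
  exact h b hb c hc hbc t ht hm

lemma Suit.congr {k k' : W → List ℕ → ℝ} {al : W} {S : Set (Code W)} {sh : Shape}
    {r : Fin sh.s → W} {h h' : List ℕ → ℝ} {N m g : ℕ} {F : Finset W}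
    {p : Fin sh.n → List ℕ → ℝ} {a : Fin sh.n → W}
    (hs : Suit k al S sh r h N m F p a) (hk : ∀ b < al, k b = k' b) (hF : ∀ b ∈ F, b < al)
    (hg : m ≤ g) (hh : ∀ t, V t → t.length ≤ g → h t = h' t) :
    Suit k' al S sh r h' N m F p a := by
  obtain ⟨h1, h2, h3, h4, h5, h6, h7⟩ := hs
  refine ⟨h1, h2, h3, h4, ?_, ?_, ?_⟩
  · intro j t ht
    rw [← hk _ (h2 j)]; exact h5 j t ht
  · intro j t ht hN hm
    rw [← hk _ (h2 j), ← hh t ht (hm.trans hg)]; exact h6 j t ht hN hm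
  · refine h7.congr ?_
    rintro b (hb | ⟨j, rfl⟩)
    · exact hk b (hF b hb)
    · exact hk _ (h2 j)

lemma Caught.congr {n : ℕ} {k k' : W → List ℕ → ℝ} {al : W} {h h' : List ℕ → ℝ} {N m g : ℕ}
    {Fp : Finset W} {U : Fin n → List ℕ → ℝ} {a : Fin n → W}
    (hs : Caught k h N m g Fp U a) (hk : ∀ b < al, k b = k' b) (ha : ∀ j, a j < al)
    (hh : ∀ t, V t → t.length ≤ g → h t = h' t) :
    Caught k' h' N m g Fp U a := by
  obtain ⟨l, h1, h2, h3, h4, h5, h6⟩ := hs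
  refine ⟨l, h1, h2, h3, ?_, ?_, ?_⟩
  · intro j t ht hm hl
    rw [← hk _ (ha j), ← hh t ht (by omega)]; exact h4 j t ht hm hl
  · intro t ht hl
    rw [← hh t ht (by omega)]
    rcases h5 t ht hl with h | h
    · left; intro j; rw [← hk _ (ha j)]; exact h j
    · right; exact h
  · intro j t ht hm hl
    rw [← hk _ (ha j), ← hh t ht (by omega)]; exact h6 j t ht hm hl

lemma Run.congr {k k' : W → List ℕ → ℝ} {al : W} {S : Set (Code W)} {sh : Shape}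
    {r : Fin sh.s → W} {ga : W} {h h' : List ℕ → ℝ} {N g : ℕ} {Fp : Finset W}
    (hr : Run k al S sh r ga h N g Fp) (hk : ∀ b < al, k b = k' b)
    (hh : ∀ t, V t → t.length ≤ g → h t = h' t) :
    Run k' al S sh r ga h' N g Fp := by
  obtain ⟨h1, h2, h3⟩ := hr
  refine ⟨h1, h2, fun th hth => ?_⟩
  obtain ⟨m, F, e1, e2, e3, e4, e5, e6, e7⟩ := h3 th hth
  have hF : ∀ b ∈ F, b < al := fun b hb => h2 b (e4 hb)
  refine ⟨m, F, e1, e2, e3, e4, e5.congr fun b hb => hk b (hF b hb), ?_, ?_⟩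
  · intro b hb t ht hm hg
    rw [← hk b (hF b hb), ← hh t ht hg]; exact e6 b hb t ht hm hg
  · rintro ⟨a, ha⟩
    have hk' : ∀ b < al, k' b = k b := fun b hb => (hk b hb).symm
    have hh' : ∀ t, V t → t.length ≤ g → h' t = h t := fun t ht hg => (hh t ht hg).symm
    obtain ⟨a', ha', hc⟩ := e7 ⟨a, ha.congr hk' hF e2 hh'⟩
    exact ⟨a', ha'.congr hk hF e2 hh, hc.congr hk ha'.2.1 hh⟩

end congr

lemma Rich.congr {k k' : W → List ℕ → ℝ} {j l : ℕ} {F : Finset W} (h : Rich k j l F)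
    (hk : ∀ b ∈ F, k b = k' b) : Rich k' j l F := by
  intro s hs g hg1 hg hg2
  have := h s hs g hg1 hg hg2
  have e : (range (l + 1)).filter (fun a => ∀ b ∈ F, k b (a :: s) = g b) =
      (range (l + 1)).filter (fun a => ∀ b ∈ F, k' b (a :: s) = g b) := by
    refine filter_congr fun a _ => ?_
    constructor
    · intro h b hb; rw [← hk b hb]; exact h b hb
    · intro h b hb; rw [hk b hb]; exact h b hb
  rwa [e] at this

lemma Inv.congr {k k' : W → List ℕ → ℝ} {S : W → Set (Code W)} {F : Finset W} {al : W}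
    (h : Inv k S F) (hF : ∀ b ∈ F, b ≤ al) (hk : ∀ b ≤ al, k b = k' b) : Inv k' S F := by
  obtain ⟨⟨m, h1⟩, h2, h3⟩ := h
  refine ⟨⟨m, h1.congr fun b hb => hk b (hF b hb)⟩, ?_, ?_⟩
  · intro j n
    obtain ⟨l, hl, hr⟩ := h2 j n
    exact ⟨l, hl, hr.congr fun b hb => hk b (hF b hb)⟩
  · intro be hbe hne sh r hr ga hga n
    obtain ⟨N, g, Fp, e1, e2, e3, e4⟩ := h3 be hbe hne sh r hr ga hga n
    have hb := hF be hbe
    refine ⟨N, g, Fp, e1, ?_, ?_, ?_⟩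
    · refine e2.congr (fun b hb' => hk b (hb'.le.trans hb)) ?_
      intro t _ _
      rw [hk be hb]
    · intro b hb1 hb2 t ht hN hg
      rw [← hk b (hF b hb1), ← hk be hb]
      exact e3 b hb1 hb2 t ht hN hg
    · refine e4.congr ?_
      rintro b (hb1 | hb1)
      · exact hk b (hF b hb1)
      · exact hk b ((e2.2.1 b hb1).le.trans hb)

lemma Good.congr {S : W → Set (Code W)} {mu : W → ℕ → List ℕ → ℝ} {k k' : W → List ℕ → ℝ}
    {al : W}
    (hk : ∀ b ≤ al, k b = k' b) (h : Good S mu k al) : Good S mu k' al := by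
  obtain ⟨h1, h2, h3, h4, h5⟩ := h
  have e := hk al le_rfl
  rw [e] at h1 h2 h3 h4
  exact ⟨h1, h2, h3, h4, fun F hF => (h5 F hF).congr hF hk⟩

end Pool.Agent.H12.Jayne
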