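import Pool.Agent.H12.Jayne.Tree

/-!
# The compact convex set attached to a family of weights
-/

open Finset

namespace Pool.Agent.H12.Jayne

variable {W : Type}

/-- from length `m` on, the weights of `c` are below those of `b` -/
def Ord (k : W → List ℕ → ℝ) (m : ℕ) (b c : W) : Prop :=
  ∀ t, V t → m < t.length → k c t ≤ k b t

lemma Ord.mono {k : W → List ℕ → ℝ} {m n : ℕ} {b c : W} (h : Ord k m b c) (hmn : m ≤ n) :
    Ord k n b c := fun t ht hn => h t ht (by omega)

variable [LinearOrder W]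

/-- all pairs of the set `A` are ordered from length `m` on -/
def OrdS (k : W → List ℕ → ℝ) (m : ℕ) (A : Set W) : Prop :=
  ∀ b ∈ A, ∀ c ∈ A, b < c → Ord k m b c

lemma OrdS.mono {k : W → List ℕ → ℝ} {m n : ℕ} {A : Set W} (h : OrdS k m A) (hmn : m ≤ n) :
    OrdS k n A := fun b hb c hc hbc => (h b hb c hc hbc).mono hmn

lemma OrdS.subset {k : W → List ℕ → ℝ} {m : ℕ} {A B : Set W} (h : OrdS k m A) (hB : B ⊆ A) :
    OrdS k m B := fun b hb c hc hbc => h b (hB hb) c (hB hc) hbc

variable [OrderBot W]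

/-- the basic properties of the weights -/
structure Wts (k : W → List ℕ → ℝ) : Prop where
  gr : ∀ b t, V t → k b t ∈ Gr t.length
  bot : ∀ t, V t → k ⊥ t = 1

namespace Wts
variable {k : W → List ℕ → ℝ} (hk : Wts k)
include hk

lemma pos (b : W) : ∀ t, V t → 0 < k b t := fun t ht => Gr_pos (hk.gr b t ht)
lemma le_one (b : W) : ∀ t, V t → k b t ≤ 1 := fun t ht => Gr_le_one (hk.gr b t ht)
lemma ppos (b : W) {t : List ℕ} (ht : V t) : 0 < pr (k b) t := pr_pos (hk.pos b) ht
lemma ple (b : W) {t : List ℕ} (ht : V t) : pr (k b) t ≤ 1 := pr_le_one (hk.pos b) (hk.le_one b) ht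
lemma pbot {t : List ℕ} (ht : V t) : pr (k ⊥) t = 1 := by
  induction t with
  | nil => simp
  | cons a s ih => rw [pr_cons, ih ht.2, hk.bot _ ht, one_mul]
lemma ord_bot (m : ℕ) (b : W) : Ord k m ⊥ b := fun t ht _ => by
  rw [hk.bot t ht]; exact hk.le_one b t ht

end Wts

/-- the compact convex set -/
def KK (k : W → List ℕ → ℝ) : Set (W → List ℕ → ℝ) :=
  {x | (∀ b t, 0 ≤ x b t) ∧ (∀ b t, ¬ V t → x b t = 0) ∧ (∀ b, Add (x b)) ∧ x ⊥ [] = 1 ∧
    ∀ b c, b < c → ∀ t, V t → Ord k t.length b c → pr (k b) t * x c t ≤ pr (k c) t * x b t}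

section basic

variable {k : W → List ℕ → ℝ} (hk : Wts k) {x : W → List ℕ → ℝ} (hx : x ∈ KK k)

include hk hx

lemma le_pr_mul (b : W) {t : List ℕ} (ht : V t) : x b t ≤ pr (k b) t * x ⊥ t := by
  rcases eq_or_ne b ⊥ with rfl | hb
  · rw [hk.pbot ht, one_mul]
  · have := hx.2.2.2.2 ⊥ b (bot_lt_iff_ne_bot.2 hb) t ht (hk.ord_bot _ _)
    rwa [hk.pbot ht, one_mul] at this

omit hk in
lemma le_nil (b : W) {t : List ℕ} (ht : V t) : x b t ≤ x b [] := by
  rw [← sum_eq_nil (hx.2.2.1 b) t.length]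
  exact single_le_sum (f := fun t => x b t) (fun s _ => hx.1 b s) (mem_T.2 ⟨ht, rfl⟩)

lemma le_one' (b : W) (t : List ℕ) : x b t ≤ 1 := by
  by_cases ht : V t
  · refine (le_nil hx b ht).trans ?_
    refine (le_pr_mul hk hx b V_nil).trans ?_
    rw [hx.2.2.2.1]; simp
  · rw [hx.2.1 b t ht]; exact zero_le_one

end basic

lemma isClosed_KK (k : W → List ℕ → ℝ) : IsClosed (KK k) := by
  have hc : ∀ (b : W) (t : List ℕ), Continuous fun x : W → List ℕ → ℝ => x b t := fun b t =>
    (continuous_apply t).comp (continuous_apply b)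
  have : KK k = (⋂ b, ⋂ t, {x | 0 ≤ x b t}) ∩ ((⋂ b, ⋂ t, ⋂ (_ : ¬ V t), {x | x b t = 0}) ∩
      ((⋂ b, ⋂ s, ⋂ (_ : V s), {x | x b s = ∑ a ∈ range (s.length + 1), x b (a :: s)}) ∩
      ({x | x ⊥ [] = 1} ∩ ⋂ b, ⋂ c, ⋂ (_ : b < c), ⋂ t, ⋂ (_ : V t), ⋂ (_ : Ord k t.length b c),
        {x | pr (k b) t * x c t ≤ pr (k c) t * x b t}))) := by
    ext x
    simp [KK, Add]
  rw [this]
  refine IsClosed.inter ?_ (IsClosed.inter ?_ (IsClosed.inter ?_ (IsClosed.inter ?_ ?_)))
  · exact isClosed_iInter fun b => isClosed_iInter fun t => isClosed_le continuous_const (hc b t)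
  · exact isClosed_iInter fun b => isClosed_iInter fun t => isClosed_iInter fun _ =>
      isClosed_eq (hc b t) continuous_const
  · exact isClosed_iInter fun b => isClosed_iInter fun t => isClosed_iInter fun _ =>
      isClosed_eq (hc b t) (continuous_finsetSum _ fun a _ => hc b _)
  · exact isClosed_eq (hc _ _) continuous_const
  · exact isClosed_iInter fun b => isClosed_iInter fun c => isClosed_iInter fun _ =>
      isClosed_iInter fun t => isClosed_iInter fun _ => isClosed_iInter fun _ =>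
      isClosed_le (continuous_const.mul (hc c t)) (continuous_const.mul (hc b t))

lemma isCompact_KK {k : W → List ℕ → ℝ} (hk : Wts k) : IsCompact (KK k) := by
  have h1 : IsCompact (Set.pi Set.univ fun _ : W => Set.pi Set.univ fun _ : List ℕ =>
      Set.Icc (0 : ℝ) 1) :=
    isCompact_univ_pi fun _ => isCompact_univ_pi fun _ => isCompact_Icc
  refine h1.of_isClosed_subset (isClosed_KK k) ?_
  intro x hx b _ t _
  exact ⟨hx.1 b t, le_one' hk hx b t⟩

lemma convex_KK (k : W → List ℕ → ℝ) : Convex ℝ (KK k) := by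
  intro x hx y hy a b ha hb hab
  refine ⟨?_, ?_, ?_, ?_, ?_⟩
  · intro c t
    simp only [Pi.add_apply, Pi.smul_apply, smul_eq_mul]
    have := hx.1 c t; have := hy.1 c t
    positivity
  · intro c t ht
    simp only [Pi.add_apply, Pi.smul_apply, smul_eq_mul, hx.2.1 c t ht, hy.2.1 c t ht]
    ring
  · intro c t ht
    simp only [Pi.add_apply, Pi.smul_apply, smul_eq_mul]
    rw [hx.2.2.1 c t ht, hy.2.2.1 c t ht, sum_add_distrib, mul_sum, mul_sum]
  · simp only [Pi.add_apply, Pi.smul_apply, smul_eq_mul, hx.2.2.2.1, hy.2.2.2.1]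
    linarith
  · intro c d hcd t ht ho
    simp only [Pi.add_apply, Pi.smul_apply, smul_eq_mul]
    have h1 := hx.2.2.2.2 c d hcd t ht ho
    have h2 := hy.2.2.2.2 c d hcd t ht ho
    nlinarith [mul_le_mul_of_nonneg_left h1 ha, mul_le_mul_of_nonneg_left h2 hb]

/-! ### The functionals `wt` and `WW` -/

/-- the normalised mass of the coordinate `b` at level `L` -/
noncomputable def wt (k x : W → List ℕ → ℝ) (b : W) (L : ℕ) : ℝ :=
  ∑ t ∈ T L, x b t / pr (k b) t

/-- its limit -/
noncomputable def WW (k x : W → List ℕ → ℝ) (b : W) : ℝ := ⨆ L, wt k x b L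

section wt

variable {k : W → List ℕ → ℝ} (hk : Wts k) {x : W → List ℕ → ℝ} (hx : x ∈ KK k)
include hk hx

lemma wt_succ (b : W) (L : ℕ) : wt k x b L ≤ wt k x b (L + 1) := by
  unfold wt
  rw [sum_T_succ]
  refine sum_le_sum fun s hs => ?_
  have hsV := V_of_mem hs
  rw [hx.2.2.1 b s hsV, length_of_mem hs, sum_div]
  refine sum_le_sum fun a ha => ?_
  have hV := V_of_mem (cons_mem_T hs (mem_range.1 ha))
  have h1 := hx.1 b (a :: s)
  have h2 := hk.ppos b hsV
  have h3 := hk.ppos b hV
  refine div_le_div_of_nonneg_left h1 h3 ?_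
  rw [pr_cons]
  calc k b (a :: s) * pr (k b) s ≤ 1 * pr (k b) s :=
        mul_le_mul_of_nonneg_right (hk.le_one b _ hV) h2.le
    _ = _ := one_mul _

lemma wt_mono (b : W) : Monotone (wt k x b) := monotone_nat_of_le_succ (wt_succ hk hx b)

lemma wt_le_one (b : W) (L : ℕ) : wt k x b L ≤ 1 := by
  unfold wt
  calc ∑ t ∈ T L, x b t / pr (k b) t ≤ ∑ t ∈ T L, x ⊥ t := by
        refine sum_le_sum fun t ht => ?_
        rw [div_le_iff₀ (hk.ppos b (V_of_mem ht)), mul_comm]
        exact le_pr_mul hk hx b (V_of_mem ht)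
    _ = 1 := by rw [sum_eq_nil (hx.2.2.1 ⊥), hx.2.2.2.1]

lemma wt_nonneg (b : W) (L : ℕ) : 0 ≤ wt k x b L :=
  sum_nonneg fun t ht => div_nonneg (hx.1 b t) (hk.ppos b (V_of_mem ht)).le

lemma bdd_wt (b : W) : BddAbove (Set.range (wt k x b)) :=
  ⟨1, by rintro _ ⟨L, rfl⟩; exact wt_le_one hk hx b L⟩

lemma wt_le_WW (b : W) (L : ℕ) : wt k x b L ≤ WW k x b := le_ciSup (bdd_wt hk hx b) L

lemma WW_nonneg (b : W) : 0 ≤ WW k x b := (wt_nonneg hk hx b 0).trans (wt_le_WW hk hx b 0)

lemma WW_le_one (b : W) : WW k x b ≤ 1 := ciSup_le fun L => wt_le_one hk hx b L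

lemma exists_wt_close (b : W) {e : ℝ} (he : 0 < e) :
    ∃ n, ∀ L, n ≤ L → WW k x b - wt k x b L < e := by
  obtain ⟨n, hn⟩ := exists_lt_of_lt_ciSup (show WW k x b - e < ⨆ L, wt k x b L by
    unfold WW; linarith)
  exact ⟨n, fun L hL => by have := wt_mono hk hx b hL; linarith⟩

lemma div_le_div_of_ord {b c : W} (hbc : b < c) {t : List ℕ} (ht : V t)
    (ho : Ord k t.length b c) : x c t / pr (k c) t ≤ x b t / pr (k b) t := by
  rw [div_le_div_iff₀ (hk.ppos c ht) (hk.ppos b ht), mul_comm, mul_comm (x b t)]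
  exact hx.2.2.2.2 b c hbc t ht ho

lemma wt_anti {b c : W} (hbc : b < c) {L : ℕ} (ho : Ord k L b c) :
    wt k x c L ≤ wt k x b L :=
  sum_le_sum fun t ht => div_le_div_of_ord hk hx hbc (V_of_mem ht)
    (by rw [length_of_mem ht]; exact ho)

lemma WW_anti {b c : W} (hbc : b < c) {M : ℕ} (ho : Ord k M b c) :
    WW k x c ≤ WW k x b := by
  refine ciSup_le fun L => ?_
  calc wt k x c L ≤ wt k x c (max L M) := wt_mono hk hx c (le_max_left _ _)
    _ ≤ wt k x b (max L M) := wt_anti hk hx hbc (ho.mono (le_max_right _ _))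
    _ ≤ _ := wt_le_WW hk hx b _

end wt

/-! ### The catching estimate -/

lemma node_est {P Q R S u xb xa A B : ℝ} (hP : 0 < P) (hQ : 0 < Q) (hR : 0 < R) (hS : 0 ≤ S)
    (hP1 : P ≤ 1) (hS1 : S ≤ 1) (hu : 0 ≤ u) (hu1 : u ≤ 1)
    (hxa : 0 ≤ xa) (hle : P * xa ≤ Q * xb)
    (hAS : A ≤ S) (hAR : S * B ≤ A * R) (hQB : Q ≤ B) (hBR : B ≤ R)
    (h : P = u * A ∨ Q ≤ 1 / 2 * R) :
    |xb - S * u / R * xa| ≤ (xb / P - xa / Q) + 2 * (xa / Q - xa / R) := by
  set wb := xb / P with hwb
  set wa := xa / Q with hwa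
  have e1 : xb = P * wb := by rw [hwb]; field_simp
  have e2 : xa = Q * wa := by rw [hwa]; field_simp
  have hwa0 : 0 ≤ wa := div_nonneg hxa hQ.le
  have hw : wa ≤ wb := by
    rw [hwa, hwb, div_le_div_iff₀ hQ hP]; linarith
  have e3 : xa / R = Q / R * wa := by rw [e2]; ring
  set q := Q / R with hq
  have hq0 : 0 ≤ q := by positivity
  have hq1 : q ≤ 1 := by rw [hq, div_le_one hR]; linarith
  have e4 : S * u / R * xa = S * u * q * wa := by rw [e2, hq]; ring
  have key : |P - S * u * q| ≤ 2 * (1 - q) := by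
    rcases h with h | h
    · have h1 : S * q ≤ A := by
        rw [hq, mul_div_assoc', div_le_iff₀ hR]
        calc S * Q ≤ S * B := mul_le_mul_of_nonneg_left hQB hS
          _ ≤ _ := hAR
      have h2 : 0 ≤ P - S * u * q := by rw [h]; nlinarith
      rw [abs_of_nonneg h2]
      have h3 : P ≤ S * u := by rw [h]; nlinarith
      have h4 : S * u ≤ 1 := by nlinarith
      nlinarith [mul_nonneg (mul_nonneg hS hu) (sub_nonneg.2 hq1)]
    · have h1 : q ≤ 1 / 2 := by rw [hq, div_le_iff₀ hR]; exact h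
      have h2 : 0 ≤ S * u * q := by positivity
      have h4 : S * u ≤ 1 := by nlinarith
      have h3 : S * u * q ≤ 1 := by nlinarith
      rw [abs_le]
      constructor <;> linarith
  rw [e4, e1, e3]
  have e5 : P * wb - S * u * q * wa = P * (wb - wa) + (P - S * u * q) * wa := by ring
  rw [e5]
  calc |P * (wb - wa) + (P - S * u * q) * wa|
      ≤ |P * (wb - wa)| + |(P - S * u * q) * wa| := abs_add_le _ _
    _ = P * (wb - wa) + |P - S * u * q| * wa := by
        rw [abs_mul, abs_mul, abs_of_nonneg hP.le, abs_of_nonneg (sub_nonneg.2 hw),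
          abs_of_nonneg hwa0]
    _ ≤ 1 * (wb - wa) + 2 * (1 - q) * wa := by
        have := sub_nonneg.2 hw
        gcongr
    _ = _ := by ring

variable {k : W → List ℕ → ℝ} (hk : Wts k) {x : W → List ℕ → ℝ} (hx : x ∈ KK k)
include hk hx

lemma catch_est {al b a : W} {N l : ℕ} {U : List ℕ → ℝ} (hb : b < al) (hNl : N ≤ l)
    (h1 : ∀ t, V t → t.length ≤ N → k b t = k a t)
    (h2 : ∀ t, V t → N < t.length → t.length ≤ l → k al t ≤ k b t)
    (h3 : ∀ t, V t → t.length = l + 1 → k b t = U (res N t) ∨ k al t ≤ 1 / 2)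
    (h4 : Ord k (l + 1) b al)
    (hU0 : ∀ t ∈ T N, 0 ≤ U t) (hU1 : ∀ t ∈ T N, U t ≤ 1)
    (h5 : ∀ t ∈ T N, x a t / pr (k a) t ≤ U t * (x al t / pr (k al) t))
    (h6 : ∀ t ∈ T N, U t * (x al t / pr (k al) t) ≤
      x a t / pr (k a) t + 1 / 2 ^ N * (x al t / pr (k al) t)) :
    ∑ t ∈ T N, |x b t - x a t| ≤
      1 / 2 ^ N + (WW k x b - WW k x al) + 3 * (WW k x al - wt k x al N) := by
  classical
  set c : List ℕ → ℝ := fun t => pr (k b) t * U t / pr (k al) t with hc
  -- first part: comparison of `x a` with the target on level `N`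
  have A1 : ∑ t ∈ T N, |x a t - c t * x al t| ≤ 1 / 2 ^ N := by
    calc ∑ t ∈ T N, |x a t - c t * x al t| ≤ ∑ t ∈ T N, 1 / 2 ^ N * (x al t / pr (k al) t) := by
          refine sum_le_sum fun t ht => ?_
          have hV := V_of_mem ht
          have e0 : pr (k b) t = pr (k a) t := pr_congr h1 hV (length_of_mem ht).le
          have pa := hk.ppos a hV
          have pa1 := hk.ple a hV
          have e1 : x a t = pr (k a) t * (x a t / pr (k a) t) := by field_simp
          have e2 : c t * x al t = pr (k a) t * (U t * (x al t / pr (k al) t)) := by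
            rw [hc]; simp only; rw [e0]; ring
          rw [e2, e1, ← mul_sub, abs_mul, abs_of_pos pa]
          have h5' := h5 t ht
          have h6' := h6 t ht
          have h7 : |x a t / pr (k a) t - U t * (x al t / pr (k al) t)| ≤
              1 / 2 ^ N * (x al t / pr (k al) t) := by
            rw [abs_le]; constructor <;> linarith
          have h8 : 0 ≤ 1 / 2 ^ N * (x al t / pr (k al) t) := (abs_nonneg _).trans h7
          calc _ ≤ 1 * (1 / 2 ^ N * (x al t / pr (k al) t)) :=
                mul_le_mul pa1 h7 (abs_nonneg _) zero_le_one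
            _ = _ := one_mul _
      _ = 1 / 2 ^ N * wt k x al N := by rw [wt, mul_sum]
      _ ≤ 1 / 2 ^ N * 1 := mul_le_mul_of_nonneg_left (wt_le_one hk hx al N) (by positivity)
      _ = _ := mul_one _
  -- second part
  have A2 : ∑ t ∈ T N, |x b t - c t * x al t| ≤
      ∑ t ∈ T (l + 1), |x b t - c (res N t) * x al t| := by
    set φ : List ℕ → ℝ := fun t => if 0 ≤ x b t - c t * x al t then 1 else -1 with hφ
    have hφ1 : ∀ t, |φ t| = 1 := by
      intro t; rw [hφ]; simp only; split_ifs <;> simp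
    have e1 := sum_res (hx.2.2.1 b) φ (show N ≤ l + 1 by omega)
    have e2 := sum_res (hx.2.2.1 al) (fun t => φ t * c t) (show N ≤ l + 1 by omega)
    have e3 : ∑ t ∈ T N, |x b t - c t * x al t| = ∑ t ∈ T N, φ t * x b t -
        ∑ t ∈ T N, φ t * c t * x al t := by
      rw [← sum_sub_distrib]
      refine sum_congr rfl fun t _ => ?_
      rw [hφ]; simp only
      split_ifs with h
      · rw [abs_of_nonneg h]; ring
      · rw [abs_of_neg (lt_of_not_ge h)]; ring
    rw [e3, ← e1, ← e2, ← sum_sub_distrib]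
    refine sum_le_sum fun t _ => ?_
    have : φ (res N t) * x b t - φ (res N t) * c (res N t) * x al t =
        φ (res N t) * (x b t - c (res N t) * x al t) := by ring
    rw [this]
    refine (le_abs_self _).trans ?_
    rw [abs_mul, hφ1, one_mul]
  have A3 : ∑ t ∈ T (l + 1), |x b t - c (res N t) * x al t| ≤
      (WW k x b - WW k x al) + 3 * (WW k x al - wt k x al N) := by
    have B1 : ∑ t ∈ T (l + 1), |x b t - c (res N t) * x al t| ≤
        ∑ t ∈ T (l + 1), ((x b t / pr (k b) t - x al t / pr (k al) t) +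
          2 * (x al t / pr (k al) t - x al t / pr (k al) (res N t))) := by
      refine sum_le_sum fun t ht => ?_
      have hV := V_of_mem ht
      have hlen := length_of_mem ht
      obtain ⟨a', s, rfl⟩ : ∃ a' s, t = a' :: s := by
        cases t with
        | nil => simp at hlen
        | cons a' s => exact ⟨a', s, rfl⟩
      have hsV : V s := hV.2
      have hsl : s.length = l := by simpa using hlen
      have hres : res N (a' :: s) = res N s := res_cons (by omega)
      have hresT : res N (a' :: s) ∈ T N := by rw [hres]; exact res_mem hsV (by omega)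
      have hresV := V_of_mem hresT
      refine node_est (A := pr (k b) s) (B := pr (k al) s) (hk.ppos b hV) (hk.ppos al hV)
        (hk.ppos al hresV) (hk.ppos b hresV).le (hk.ple b hV) (hk.ple b hresV)
        (hU0 _ hresT) (hU1 _ hresT) (hx.1 al _) ?_ ?_ ?_ ?_ ?_ ?_
      · exact hx.2.2.2.2 b al hb _ hV (by rw [hlen]; exact h4)
      · rw [hres]; exact pr_le_res (hk.pos b) (hk.le_one b) hsV
      · rw [hres]
        have := pr_ratio (hk.pos b) (hk.pos al) (N := N) (L := l) h2 hsV (by omega) hsl.le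
        linarith
      · rw [pr_cons]
        calc k al (a' :: s) * pr (k al) s ≤ 1 * pr (k al) s :=
              mul_le_mul_of_nonneg_right (hk.le_one al _ hV) (hk.ppos al hsV).le
          _ = _ := one_mul _
      · rw [hres]; exact pr_le_res (hk.pos al) (hk.le_one al) hsV
      · rcases h3 _ hV hlen with h | h
        · left; rw [pr_cons, h]
        · right
          rw [pr_cons, hres]
          have := pr_le_res (N := N) (hk.pos al) (hk.le_one al) hsV
          calc k al (a' :: s) * pr (k al) s ≤ 1 / 2 * pr (k al) s :=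
                mul_le_mul_of_nonneg_right h (hk.ppos al hsV).le
            _ ≤ _ := by linarith
    have B2 : ∑ t ∈ T (l + 1), x al t / pr (k al) (res N t) = wt k x al N := by
      have := sum_res (hx.2.2.1 al) (fun t => 1 / pr (k al) t) (show N ≤ l + 1 by omega)
      unfold wt
      calc _ = ∑ t ∈ T (l + 1), 1 / pr (k al) (res N t) * x al t :=
            sum_congr rfl fun t _ => by ring
        _ = ∑ t ∈ T N, 1 / pr (k al) t * x al t := this
        _ = _ := sum_congr rfl fun t _ => by ring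
    refine B1.trans ?_
    rw [sum_add_distrib, ← mul_sum, sum_sub_distrib, sum_sub_distrib, B2]
    have c1 : ∑ t ∈ T (l + 1), x b t / pr (k b) t = wt k x b (l + 1) := rfl
    have c2 : ∑ t ∈ T (l + 1), x al t / pr (k al) t = wt k x al (l + 1) := rfl
    rw [c1, c2]
    have d1 := wt_le_WW hk hx b (l + 1)
    have d2 := wt_le_WW hk hx al (l + 1)
    have d3 := wt_mono hk hx al (show N ≤ l + 1 by omega)
    linarith
  calc ∑ t ∈ T N, |x b t - x a t|
      ≤ ∑ t ∈ T N, (|x b t - c t * x al t| + |x a t - c t * x al t|) := by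
        refine sum_le_sum fun t _ => ?_
        have : x b t - x a t = (x b t - c t * x al t) - (x a t - c t * x al t) := by ring
        rw [this]; exact abs_sub _ _
    _ = ∑ t ∈ T N, |x b t - c t * x al t| + ∑ t ∈ T N, |x a t - c t * x al t| := sum_add_distrib
    _ ≤ _ := by linarith

end Pool.Agent.H12.Jayne
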