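import Pool.Agent.H12.Jayne.Rec

/-!
# Martin's axiom and perfectly normal compact spaces
-/

open Cardinal Set TopologicalSpace

namespace Pool.Agent.H12.Jayne

/-- Two elements of a preorder are compatible if they have a common lower bound. -/
def Compatible {P : Type} [Preorder P] (p q : P) : Prop := ∃ r, r ≤ p ∧ r ≤ q

/-- The countable chain condition: every set of pairwise incompatible elements is countable. -/
def CCC (P : Type) [Preorder P] : Prop :=
  ∀ A : Set P, (∀ p ∈ A, ∀ q ∈ A, p ≠ q → ¬ Compatible p q) → A.Countable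

/-- A subset of a poset is dense if every element has an extension (a smaller element) in it. -/
def IsDenseSet {P : Type} [Preorder P] (D : Set P) : Prop := ∀ p, ∃ q ∈ D, q ≤ p

/-- `MA(κ)`: for every nonempty ccc poset and every family of at most `κ` dense subsets
there is a filter meeting all of them. -/
def MAFor (κ : Cardinal.{0}) : Prop :=
  ∀ (P : Type) [PartialOrder P] [Nonempty P], CCC P →
    ∀ 𝒟 : Set (Set P), #𝒟 ≤ κ → (∀ D ∈ 𝒟, IsDenseSet D) →
      ∃ G : Order.PFilter P, ∀ D ∈ 𝒟, ∃ p ∈ G, p ∈ D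

theorem ma_lemma {κ : Cardinal.{0}} (hMA : MAFor κ) {X : Type} [TopologicalSpace X]
    [CompactSpace X] [T2Space X] [HereditarilyLindelofSpace X] {I : Type} [LinearOrder I]
    (hI : #I ≤ κ) (hb : ∀ A : Set I, A.Countable → ∃ b, ∀ a ∈ A, a < b) (C : I → Set X)
    (hC : ∀ i, IsClosed (C i)) (hmono : Monotone C) (hun : ⋃ i, C i = Set.univ) :
    ∃ i, C i = Set.univ := by
  classical
  by_contra hcon
  push Not at hcon
  -- the union of the open sets which are contained in some `C i`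
  obtain ⟨W0, hW0o, hW0n, hW0⟩ : ∃ W0 : Set X, IsOpen W0 ∧ W0.Nonempty ∧
      ∀ W' ⊆ W0, IsOpen W' → W'.Nonempty → ∀ i, (W' \ C i).Nonempty := by
    let ι : Type := {M : Set X // IsOpen M ∧ ∃ i, M ⊆ C i}
    obtain ⟨t, htc, ht⟩ := eq_open_union_countable (fun M : ι => M.1) (fun M => M.2.1)
    choose f hf using fun M : ι => M.2.2
    obtain ⟨b, hb⟩ := hb (f '' t) (htc.image f)
    have hGC : (⋃ M : ι, M.1) ⊆ C b := by
      rw [← ht]
      refine iUnion₂_subset fun M hM => (hf M).trans (hmono (hb _ ⟨M, hM, rfl⟩).le)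
    refine ⟨(C b)ᶜ, (hC b).isOpen_compl, nonempty_compl.2 (hcon b), ?_⟩
    intro W' hW' hW'o hW'n i
    by_contra h
    rw [not_nonempty_iff_eq_empty, sdiff_eq_empty] at h
    obtain ⟨z, hz⟩ := hW'n
    exact hW' hz (hGC (mem_iUnion.2 ⟨⟨W', hW'o, i, h⟩, hz⟩))
  -- the poset
  let P : Type := {p : Set X // IsOpen p ∧ p.Nonempty ∧ p ⊆ W0}
  have : Nonempty P := ⟨⟨W0, hW0o, hW0n, Subset.rfl⟩⟩
  have hccc : CCC P := by
    intro A hA
    obtain ⟨t, htc, ht⟩ := eq_open_union_countable (fun p : A => p.1.1) (fun p => p.1.2.1)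
    refine (htc.image Subtype.val).mono ?_
    intro p hp
    obtain ⟨z, hz⟩ := p.2.2.1
    have h1 : z ∈ ⋃ p : A, p.1.1 := mem_iUnion.2 ⟨⟨p, hp⟩, hz⟩
    rw [← ht] at h1
    obtain ⟨q, hq, hzq⟩ := mem_iUnion₂.1 h1
    refine ⟨q, hq, ?_⟩
    by_contra hne
    refine hA q.1 q.2 p hp hne ⟨⟨q.1.1 ∩ p.1, q.1.2.1.inter p.2.1, ⟨z, hzq, hz⟩,
      inter_subset_right.trans p.2.2.2⟩, ?_, ?_⟩
    · exact inter_subset_left
    · exact inter_subset_right
  let D : I → Set P := fun i => {p | closure p.1 ⊆ (C i)ᶜ}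
  have hD : ∀ i, IsDenseSet (D i) := by
    intro i p
    obtain ⟨z, hz1, hz2⟩ := hW0 p.1 p.2.2.2 p.2.1 p.2.2.1 i
    have hopen : IsOpen (p.1 \ C i) := p.2.1.sdiff (hC i)
    obtain ⟨q, hq1, hq2, hq3⟩ := exists_mem_nhds_isClosed_subset (hopen.mem_nhds ⟨hz1, hz2⟩)
    have h4 : closure (interior q) ⊆ p.1 \ C i := (closure_minimal interior_subset hq2).trans hq3
    refine ⟨⟨interior q, isOpen_interior, ⟨z, mem_interior_iff_mem_nhds.2 hq1⟩, ?_⟩, ?_, ?_⟩
    · exact (subset_closure.trans h4).trans (sdiff_subset.trans p.2.2.2)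
    · exact h4.trans fun x hx => hx.2
    · exact (subset_closure.trans h4).trans sdiff_subset
  obtain ⟨G, hG⟩ := hMA P hccc (range D) (mk_range_le.trans hI) (by
    rintro _ ⟨i, rfl⟩; exact hD i)
  -- a point in all closures
  obtain ⟨z, hz⟩ : (⋂ p : {p : P // p ∈ G}, closure p.1.1).Nonempty := by
    have hne : Nonempty {p : P // p ∈ G} := by
      obtain ⟨p, hp⟩ := G.nonempty
      exact ⟨⟨p, hp⟩⟩
    refine IsCompact.nonempty_iInter_of_directed_nonempty_isCompact_isClosed _ ?_ ?_ ?_ ?_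
    · intro p q
      obtain ⟨r, hr, hrp, hrq⟩ := G.directed p.1 p.2 q.1 q.2
      exact ⟨⟨r, hr⟩, closure_mono hrp, closure_mono hrq⟩
    · intro p; exact p.1.2.2.1.closure
    · intro p; exact isClosed_closure.isCompact
    · intro p; exact isClosed_closure
  have hzu : z ∈ ⋃ i, C i := by rw [hun]; trivial
  obtain ⟨i, hi⟩ := mem_iUnion.1 hzu
  obtain ⟨p, hpG, hpD⟩ := hG (D i) ⟨i, rfl⟩
  exact hpD (mem_iInter.1 hz ⟨p, hpG⟩) hi

theorem separable_of_ma {κ : Cardinal.{0}} (hMA : MAFor κ) {X : Type} [TopologicalSpace X]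
    [CompactSpace X] [T2Space X] [HereditarilyLindelofSpace X] {I : Type} [LinearOrder I]
    [WellFoundedLT I] (hI : #I ≤ κ) (hb : ∀ A : Set I, A.Countable → ∃ b, ∀ a ∈ A, a < b)
    (hc : ∀ i : I, (Iio i).Countable) : SeparableSpace X := by
  classical
  by_contra hsep
  have hz : ∀ S : Set X, S.Countable → ∃ z, z ∉ closure S := by
    intro S hS
    by_contra hcon
    push Not at hcon
    exact hsep ⟨S, hS, fun z => hcon z⟩
  obtain ⟨z0, -⟩ := hz ∅ countable_empty
  have : Inhabited X := ⟨z0⟩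
  obtain ⟨x, hx⟩ := exists_rec (W := I) (X := X) (fun x i => x i ∉ closure (x '' Iio i)) (by
    intro x x' i h hx
    have : x '' Iio i = x' '' Iio i := image_congr fun j hj => h j (le_of_lt hj)
    rw [← h i le_rfl, ← this]; exact hx) (by
    intro x i _
    obtain ⟨z, hz⟩ := hz (x '' Iio i) ((hc i).image x)
    refine ⟨z, ?_⟩
    have : Function.update x i z '' Iio i = x '' Iio i :=
      image_congr fun j hj => Function.update_of_ne (ne_of_lt hj) _ _
    rw [Function.update_self, this]; exact hz)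
  set Y : I → Set X := fun i => closure (x '' Iio i) with hY
  have hYmono : Monotone Y := fun i j hij => closure_mono (image_mono (Iio_subset_Iio hij))
  set Z : Set X := ⋃ i, Y i with hZ
  have hxZ : ∀ i, x i ∈ Z := by
    intro i
    obtain ⟨j, hj⟩ := hb {i} (countable_singleton i)
    exact mem_iUnion.2 ⟨j, subset_closure ⟨i, hj i rfl, rfl⟩⟩
  have hZc : IsClosed Z := by
    rw [← closure_subset_iff_isClosed]
    intro y hy
    by_contra hyZ
    -- neighbourhoods of `y`
    have hV : ∀ z : {z : X // z ≠ y}, ∃ V : Set X, IsOpen V ∧ z.1 ∈ V ∧ y ∉ closure V := by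
      intro z
      obtain ⟨q, hq1, hq2, hq3⟩ := exists_mem_nhds_isClosed_subset
        (isOpen_compl_singleton.mem_nhds (show z.1 ∈ ({y} : Set X)ᶜ from z.2))
      refine ⟨interior q, isOpen_interior, mem_interior_iff_mem_nhds.2 hq1, fun h => ?_⟩
      exact hq3 (closure_minimal interior_subset hq2 h) rfl
    choose V hVo hVz hVy using hV
    obtain ⟨t, htc, ht⟩ := eq_open_union_countable V hVo
    have : Countable t := htc.to_subtype
    have hcov : ∀ z, z ≠ y → ∃ w : t, z ∈ V w.1 := by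
      intro z hz
      have h1 : z ∈ ⋃ z, V z := mem_iUnion.2 ⟨⟨z, hz⟩, hVz ⟨z, hz⟩⟩
      rw [← ht] at h1
      obtain ⟨w, hw, hzw⟩ := mem_iUnion₂.1 h1
      exact ⟨⟨w, hw⟩, hzw⟩
    have hpick : ∀ s : Finset t, ∃ w, w ∈ Z ∧ ∀ v ∈ s, w ∉ V v.1 := by
      intro s
      have hopen : IsOpen (⋂ v ∈ s, (closure (V v.1))ᶜ) :=
        isOpen_biInter_finset fun v _ => isClosed_closure.isOpen_compl
      obtain ⟨w, hw1, hw2⟩ := mem_closure_iff.1 hy _ hopen (mem_iInter₂.2 fun v _ => hVy v.1)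
      exact ⟨w, hw2, fun v hv hwv => mem_iInter₂.1 hw1 v hv (subset_closure hwv)⟩
    choose w hw1 hw2 using hpick
    have hpick2 : ∀ s, ∃ i, w s ∈ Y i := fun s => mem_iUnion.1 (hw1 s)
    choose i hi using hpick2
    obtain ⟨j, hj⟩ := hb (range i) (countable_range i)
    have hyj : y ∉ Y j := fun h => hyZ (mem_iUnion.2 ⟨j, h⟩)
    have hcomp : IsCompact (Y j) := isClosed_closure.isCompact
    obtain ⟨s, hs⟩ := hcomp.elim_finite_subcover (fun v : t => V v.1) (fun v => hVo v.1) (by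
      intro z hz
      obtain ⟨v, hv⟩ := hcov z (by rintro rfl; exact hyj hz)
      exact mem_iUnion.2 ⟨v, hv⟩)
    have h1 := hs (hYmono (hj _ ⟨s, rfl⟩).le (hi s))
    obtain ⟨v, hv, hwv⟩ := mem_iUnion₂.1 h1
    exact hw2 s v hv hwv
  have : CompactSpace Z := isCompact_iff_compactSpace.1 hZc.isCompact
  have hHL : HereditarilyLindelofSpace Z :=
    inferInstanceAs (HereditarilyLindelofSpace {z // z ∈ Z})
  obtain ⟨i, hi⟩ := ma_lemma hMA (X := Z) hI hb (fun i => Subtype.val ⁻¹' (Y i))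
    (fun i => isClosed_closure.preimage continuous_subtype_val)
    (fun i j hij => preimage_mono (hYmono hij)) (by
      ext z
      simp only [mem_iUnion, mem_preimage, mem_univ, iff_true]
      exact mem_iUnion.1 z.2)
  have h1 : (⟨x i, hxZ i⟩ : Z) ∈ (Subtype.val ⁻¹' (Y i) : Set Z) := by rw [hi]; trivial
  exact hx i h1

/-- a perfectly normal compact space is hereditarily Lindelöf -/
theorem hereditarilyLindelof_of_perfectlyNormal {X : Type} [TopologicalSpace X] [CompactSpace X]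
    [PerfectlyNormalSpace X] : HereditarilyLindelofSpace X := by
  refine HereditarilyLindelofSpace.of_forall_isOpen fun s hs => ?_
  have h1 : IsGδ sᶜ := hs.isClosed_compl.isGδ
  obtain ⟨T, hT1, hT2, hT3⟩ := h1
  have h2 : s = ⋃ t ∈ T, tᶜ := by
    rw [← compl_inj_iff, hT3, compl_iUnion₂]
    simp [sInter_eq_biInter]
  rw [h2]
  exact hT2.isLindelof_biUnion fun t ht => (hT1 t ht).isClosed_compl.isCompact.isLindelof

end Pool.Agent.H12.Jayne
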