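import Pool.Agent.H12.Jayne.Stage4

/-!
# The recursion
-/

open Finset

namespace Pool.Agent.H12.Jayne

variable {W : Type} [LinearOrder W]

/-- a principle of recursion -/
lemma exists_rec [WellFoundedLT W] {X : Type*} [Inhabited X] (G : (W → X) → W → Prop)
    (hloc : ∀ k k' al, (∀ b ≤ al, k b = k' b) → G k al → G k' al)
    (hstep : ∀ k al, (∀ b < al, G k b) → ∃ x, G (Function.update k al x) al) :
    ∃ k, ∀ al, G k al := by
  classical
  let ext : (al : W) → ((b : W) → b < al → X) → W → X := fun al r b =>
    if h : b < al then r b h else default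
  let step : (al : W) → ((b : W) → b < al → X) → X := fun al r =>
    if h : ∃ x, G (Function.update (ext al r) al x) al then h.choose else default
  let k : W → X := (wellFounded_lt (α := W)).fix step
  have hk : ∀ al, k al = step al (fun b _ => k b) := fun al =>
    (wellFounded_lt (α := W)).fix_eq step al
  refine ⟨k, fun al => ?_⟩
  induction al using (wellFounded_lt (α := W)).induction with
  | _ al ih =>
    set k0 := ext al (fun b _ => k b) with hk0
    have e : ∀ b < al, k b = k0 b := by
      intro b hb
      simp only [hk0, ext]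
      rw [dif_pos hb]
    have h1 : ∀ b < al, G k0 b := fun b hb =>
      hloc k k0 b (fun c hc => e c (lt_of_le_of_lt hc hb)) (ih b hb)
    have h2 := hstep k0 al h1
    have h3 : k al = h2.choose := by
      rw [hk al]
      exact dif_pos h2
    refine hloc _ k al ?_ h2.choose_spec
    intro b hb
    rcases hb.eq_or_lt with rfl | hb
    · rw [Function.update_self, h3]
    · rw [Function.update_of_ne hb.ne, e b hb]

variable [OrderBot W]

theorem exists_good [WellFoundedLT W] (hc : ∀ al : W, (Set.Iio al).Countable)
    (S : W → Set (Code W)) (mu : W → ℕ → List ℕ → ℝ) : ∃ k, ∀ al, Good S mu k al := by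
  classical
  refine exists_rec (Good S mu) (fun k k' al h hg => hg.congr h) ?_
  intro k al hg
  rcases eq_or_ne al ⊥ with rfl | hal
  swap
  · exact stage hal (hc al) hg
  refine ⟨fun _ => 1, ?_, ?_, ?_, fun h => absurd rfl h, ?_⟩
  · intro t _
    rw [Function.update_self]; exact one_mem_Gr _
  · intro _ t _
    rw [Function.update_self]
  · intro t _
    exact ⟨0, Nat.zero_le _, by rw [Function.update_self]⟩
  · intro F hF
    have hF' : ∀ b ∈ F, b = ⊥ := fun b hb => le_bot_iff.1 (hF b hb)
    refine ⟨⟨0, ?_⟩, ?_, ?_⟩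
    · intro b hb c hc hbc
      rw [hF' b hb, hF' c hc] at hbc
      exact absurd hbc (lt_irrefl _)
    · intro j n
      refine ⟨max j n, le_max_right _ _, ?_⟩
      intro s hs g hg1 hg hg2
      rw [filter_true_of_mem]
      · rw [card_range]; omega
      · intro a _ b hb
        rw [hF' b hb, Function.update_self, hg1]
    · intro be hbe hne
      exact absurd (hF' be hbe) hne

lemma Good.wts {S : W → Set (Code W)} {mu : W → ℕ → List ℕ → ℝ} {k : W → List ℕ → ℝ}
    (hg : ∀ al, Good S mu k al) : Wts k :=
  ⟨fun b => (hg b).1, (hg ⊥).2.1 rfl⟩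

lemma Good.inv {S : W → Set (Code W)} {mu : W → ℕ → List ℕ → ℝ} {k : W → List ℕ → ℝ}
    (hg : ∀ al, Good S mu k al) (F : Finset W) : Inv k S F := by
  rcases F.eq_empty_or_nonempty with rfl | hne
  · exact (hg ⊥).2.2.2.2 ∅ (by simp)
  · obtain ⟨d, hd, hd'⟩ := exists_top hne
    exact (hg d).2.2.2.2 F hd'

end Pool.Agent.H12.Jayne
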