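import Pool.Agent.H12.Jayne.Inv

/-!
# One step of the recursion: finite approximations of the new weights
-/

open Finset

namespace Pool.Agent.H12.Jayne

variable {W : Type} [LinearOrder W] [OrderBot W]

/-- finite approximations -/
structure St (W : Type) where
  /-- the level up to which the weights are decided -/
  m : ℕ
  /-- the promised bounds -/
  F : Finset W
  /-- the weights -/
  h : List ℕ → ℝ

/-- the conditions on a finite approximation -/
def OK (k : W → List ℕ → ℝ) (al : W) (s : St W) : Prop :=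
  ⊥ ∈ s.F ∧ (∀ b ∈ s.F, b < al) ∧ OrdS k s.m (↑s.F : Set W) ∧
    (∀ t, V t → t.length < s.m → ∃ a ≤ t.length, s.h (a :: t) = 1) ∧
    (∀ t, V t → t.length ≤ s.m → s.h t ∈ Gr t.length)

/-- extension of finite approximations -/
def Ext (k : W → List ℕ → ℝ) (s s' : St W) : Prop :=
  s.m ≤ s'.m ∧ s.F ⊆ s'.F ∧ (∀ t, V t → t.length ≤ s.m → s'.h t = s.h t) ∧
    (∀ b ∈ s.F, ∀ t, V t → s.m < t.length → t.length ≤ s'.m → s'.h t ≤ k b t)

section ext

omit [LinearOrder W] [OrderBot W]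

lemma Ext.refl (k : W → List ℕ → ℝ) (s : St W) : Ext k s s :=
  ⟨le_rfl, Subset.rfl, fun _ _ _ => rfl, fun _ _ _ _ h1 h2 => absurd h1 (by omega)⟩

lemma Ext.trans {k : W → List ℕ → ℝ} {s s' s'' : St W} (h : Ext k s s') (h' : Ext k s' s'') :
    Ext k s s'' := by
  refine ⟨h.1.trans h'.1, h.2.1.trans h'.2.1, ?_, ?_⟩
  · intro t ht hl
    rw [h'.2.2.1 t ht (hl.trans h.1), h.2.2.1 t ht hl]
  · intro b hb t ht h1 h2
    rcases Nat.lt_or_ge s'.m t.length with h3 | h3
    · exact h'.2.2.2 b (h.2.1 hb) t ht h3 h2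
    · rw [h'.2.2.1 t ht h3]
      exact h.2.2.2 b hb t ht h1 h3

end ext

/-- change of a function beyond a length -/
def glue (m : ℕ) (h u : List ℕ → ℝ) : List ℕ → ℝ := fun t => if t.length ≤ m then h t else u t

lemma glue_le {m : ℕ} {h u : List ℕ → ℝ} {t : List ℕ} (ht : t.length ≤ m) : glue m h u t = h t :=
  if_pos ht

lemma glue_gt {m : ℕ} {h u : List ℕ → ℝ} {t : List ℕ} (ht : m < t.length) : glue m h u t = u t :=
  if_neg (by omega)

lemma ext_by {k : W → List ℕ → ℝ} {al : W} {s : St W} (hs : OK k al s) {F' : Finset W} {m' : ℕ}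
    {u : List ℕ → ℝ} (hm : s.m ≤ m') (hF : s.F ⊆ F') (hF' : ∀ b ∈ F', b < al)
    (ho : OrdS k m' (↑F' : Set W))
    (hu1 : ∀ t, V t → s.m < t.length → t.length ≤ m' → u t ∈ Gr t.length)
    (hu2 : ∀ b ∈ s.F, ∀ t, V t → s.m < t.length → t.length ≤ m' → u t ≤ k b t)
    (hu3 : ∀ t, V t → s.m ≤ t.length → t.length < m' → ∃ a ≤ t.length, u (a :: t) = 1) :
    OK k al ⟨m', F', glue s.m s.h u⟩ ∧ Ext k s ⟨m', F', glue s.m s.h u⟩ := by
  obtain ⟨h1, h2, h3, h4, h5⟩ := hs
  refine ⟨⟨hF h1, hF', ho, ?_, ?_⟩, hm, hF, ?_, ?_⟩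
  · intro t ht hl
    rcases Nat.lt_or_ge t.length s.m with h | h
    · obtain ⟨a, ha, ha'⟩ := h4 t ht h
      exact ⟨a, ha, by simp only; rw [glue_le (by simp; omega)]; exact ha'⟩
    · obtain ⟨a, ha, ha'⟩ := hu3 t ht h hl
      exact ⟨a, ha, by simp only; rw [glue_gt (by simp; omega)]; exact ha'⟩
  · intro t ht hl
    simp only
    rcases Nat.lt_or_ge s.m t.length with h | h
    · rw [glue_gt h]; exact hu1 t ht h hl
    · rw [glue_le h]; exact h5 t ht h
  · intro t ht hl
    exact glue_le hl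
  · intro b hb t ht hl hl'
    simp only
    rw [glue_gt hl]
    exact hu2 b hb t ht hl hl'

/-- the assumptions on the previous weights -/
structure Hyp (S : W → Set (Code W)) (k : W → List ℕ → ℝ) (al : W) : Prop where
  gr : ∀ b < al, ∀ t, V t → k b t ∈ Gr t.length
  bot : ∀ t, V t → k ⊥ t = 1
  z : ∀ b < al, ∀ t, V t → ∃ a ≤ t.length, k b (a :: t) = 1
  inv : ∀ F : Finset W, (∀ b ∈ F, b < al) → Inv k S F

variable {S : W → Set (Code W)} {k : W → List ℕ → ℝ} {al : W}

omit [OrderBot W] in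
lemma exists_top {F : Finset W} (h : F.Nonempty) : ∃ d ∈ F, ∀ b ∈ F, b ≤ d :=
  ⟨F.max' h, F.max'_mem h, fun b hb => F.le_max' b hb⟩

omit [OrderBot W] in
lemma le_of_top {m : ℕ} {F : Set W} (ho : OrdS k m F) {d : W} (hd : d ∈ F) {b : W} (hb : b ∈ F)
    (hbd : b ≤ d) {t : List ℕ} (ht : V t) (hm : m < t.length) : k d t ≤ k b t := by
  rcases hbd.eq_or_lt with rfl | h
  · exact le_rfl
  · exact ho b hb d hd h t ht hm

/-- extension by copying the smallest of the promised bounds -/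
lemma copy_ext (H : Hyp S k al) {s : St W} (hs : OK k al s) {F' : Finset W} {m' : ℕ}
    (hm : s.m ≤ m') (hF : s.F ⊆ F') (hF' : ∀ b ∈ F', b < al) (ho : OrdS k m' (↑F' : Set W)) :
    ∃ h', OK k al ⟨m', F', h'⟩ ∧ Ext k s ⟨m', F', h'⟩ := by
  obtain ⟨d, hd, hd'⟩ := exists_top ⟨⊥, hs.1⟩
  have hdal := hs.2.1 d hd
  refine ⟨_, ext_by hs (u := k d) hm hF hF' ho (fun t ht _ _ => H.gr d hdal t ht) ?_
    (fun t ht _ _ => H.z d hdal t ht)⟩
  intro b hb t ht h1 _
  exact le_of_top hs.2.2.1 hd hb (hd' b hb) ht h1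

/-- extension to a state with a given finite set of bounds and large level -/
lemma grow_ext (H : Hyp S k al) {s : St W} (hs : OK k al s) {F0 : Finset W}
    (hF0 : ∀ b ∈ F0, b < al) (n : ℕ) :
    ∃ s', OK k al s' ∧ Ext k s s' ∧ F0 ⊆ s'.F ∧ n ≤ s'.m := by
  classical
  have hF' : ∀ b ∈ s.F ∪ F0, b < al := by
    intro b hb
    rcases mem_union.1 hb with h | h
    · exact hs.2.1 b h
    · exact hF0 b h
  obtain ⟨m1, h1⟩ := (H.inv _ hF').1
  obtain ⟨h', e1, e2⟩ := copy_ext H hs (F' := s.F ∪ F0) (m' := max (max m1 n) s.m)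
    (le_max_right _ _) subset_union_left hF' (h1.mono (by omega))
  exact ⟨_, e1, e2, subset_union_right, by simp⟩

/-! ### Killing a measure -/

lemma sum_child_le {mu : List ℕ → ℝ} (h0 : ∀ t, 0 ≤ mu t) (hA : Add mu) {t : List ℕ} (ht : V t)
    {f : ℕ → ℝ} {c : ℕ} (hc : c ≤ t.length) (hc2 : mu (c :: t) ≤ 1 / 2 * mu t)
    (hf1 : f c ≤ 1) (hf : ∀ a, a ≤ t.length → a ≠ c → f a ≤ 1 / 2) :
    ∑ a ∈ range (t.length + 1), f a * mu (a :: t) ≤ 3 / 4 * mu t := by
  have hcr : c ∈ range (t.length + 1) := by simp; omega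
  have e1 := hA t ht
  rw [← add_sum_erase _ _ hcr] at e1 ⊢
  have e2 : ∑ a ∈ (range (t.length + 1)).erase c, f a * mu (a :: t) ≤
      ∑ a ∈ (range (t.length + 1)).erase c, 1 / 2 * mu (a :: t) := by
    refine sum_le_sum fun a ha => ?_
    have h1 := mem_erase.1 ha
    exact mul_le_mul_of_nonneg_right (hf a (by have := mem_range.1 h1.2; omega) h1.1) (h0 _)
  rw [← mul_sum] at e2
  have e3 : f c * mu (c :: t) ≤ 1 * mu (c :: t) := mul_le_mul_of_nonneg_right hf1 (h0 _)
  linarith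

/-- a level at which the approximation kills the measure -/
def KillAt (mu h : List ℕ → ℝ) (l : ℕ) : Prop :=
  ∀ t ∈ T l, ∑ a ∈ range (l + 1), h (a :: t) * mu (a :: t) ≤ 3 / 4 * mu t

lemma kill_ext (H : Hyp S k al) {s : St W} (hs : OK k al s) {mu : List ℕ → ℝ}
    (h0 : ∀ t, 0 ≤ mu t) (hA : Add mu) (n : ℕ) :
    ∃ s', OK k al s' ∧ Ext k s s' ∧ ∃ l, n ≤ l ∧ l < s'.m ∧ KillAt mu s'.h l := by
  classical
  obtain ⟨l, hl, hr⟩ := (H.inv s.F hs.2.1).2.1 2 (max n s.m)
  obtain ⟨h1, e1, e2⟩ := copy_ext H hs (F' := s.F) (m' := l) (by omega) Subset.rfl hs.2.1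
    (hs.2.2.1.mono (by omega))
  obtain ⟨d, hd, hd'⟩ := exists_top ⟨⊥, hs.1⟩
  have hdal := hs.2.1 d hd
  -- the good letters
  have hgood : ∀ t ∈ T l, ∃ c ≤ t.length, (∀ b ∈ s.F, k b (c :: t) = 1) ∧
      mu (c :: t) ≤ 1 / 2 * mu t := by
    intro t ht
    have h2 := hr t ht (fun _ => 1) rfl (fun _ _ => one_mem_Gr _) (fun _ _ _ _ _ => le_rfl)
    obtain ⟨c1, hc1, c2, hc2, hne⟩ := one_lt_card.1 (lt_of_lt_of_le one_lt_two h2)
    simp only [mem_filter, mem_range] at hc1 hc2
    have hlen := length_of_mem ht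
    have hsum : mu (c1 :: t) + mu (c2 :: t) ≤ mu t := by
      rw [hA t (V_of_mem ht), hlen]
      rw [← sum_pair (f := fun a => mu (a :: t)) hne]
      refine sum_le_sum_of_subset_of_nonneg ?_ (fun _ _ _ => h0 _)
      intro a ha
      simp only [mem_insert, mem_singleton] at ha
      rcases ha with rfl | rfl
      · exact mem_range.2 hc1.1
      · exact mem_range.2 hc2.1
    rcases le_total (mu (c1 :: t)) (mu (c2 :: t)) with h | h
    · exact ⟨c1, by omega, hc1.2, by linarith⟩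
    · exact ⟨c2, by omega, hc2.2, by linarith⟩
  choose! c hc1 hc2 hc3 using hgood
  set u : List ℕ → ℝ := fun t => match t with
    | [] => 1
    | a :: t => if a = c t then k d (a :: t) else min (1 / 2) (k d (a :: t)) with hu
  have hule : ∀ t, V t → u t ≤ k d t := by
    intro t ht
    cases t with
    | nil =>
      have := H.gr d hdal [] V_nil
      obtain ⟨i, h1, h2, h3⟩ := mem_Gr.1 this
      simp at h2
      have : i = 1 := by omega
      subst this
      simp at h3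
      simp [hu, ← h3]
    | cons a t =>
      simp only [hu]
      split_ifs
      · exact le_rfl
      · exact min_le_right _ _
  obtain ⟨f1, f2⟩ := ext_by e1 (F' := s.F) (m' := l + 1) (u := u) (Nat.le_succ _) Subset.rfl
    hs.2.1 (hs.2.2.1.mono (by omega)) (by
      intro t ht hl1 hl2
      simp only at hl1
      cases t with
      | nil => simp at hl1
      | cons a t =>
        simp only [hu]
        split_ifs
        · exact H.gr d hdal _ ht
        · exact min_mem_Gr (half_mem_Gr (by simp)) (H.gr d hdal _ ht)) (by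
      intro b hb t ht hl1 hl2
      simp only at hl1
      exact (hule t ht).trans (le_of_top hs.2.2.1 hd hb (hd' b hb) ht (by omega))) (by
      intro t ht hl1 hl2
      simp only at hl1
      have htT : t ∈ T l := mem_T.2 ⟨ht, by omega⟩
      refine ⟨c t, hc1 t htT, ?_⟩
      simp only [hu, if_true]
      exact hc2 t htT d hd)
  refine ⟨_, f1, e2.trans f2, l, by omega, Nat.lt_succ_self _, ?_⟩
  intro t ht
  have hlen := length_of_mem ht
  simp only
  have : ∑ a ∈ range (l + 1), glue l h1 u (a :: t) * mu (a :: t) =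
      ∑ a ∈ range (t.length + 1), u (a :: t) * mu (a :: t) := by
    rw [hlen]
    refine sum_congr rfl fun a _ => ?_
    rw [glue_gt (by simp; omega)]
  rw [this]
  refine sum_child_le h0 hA (V_of_mem ht) (hc1 t ht) (hc3 t ht) ?_ ?_
  · simp only [hu, if_true]
    exact (hc2 t ht d hd).le
  · intro a ha hne
    simp only [hu, if_neg hne]
    exact min_le_left _ _

end Pool.Agent.H12.Jayne
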