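import Pool.Agent.H12.Jayne.Stage

/-!
# One step of the recursion: richness
-/

open Finset

namespace Pool.Agent.H12.Jayne

lemma count_lemma (p : ℕ → Prop) [DecidablePred p] {L q M c : ℕ} (hp : ∀ a, p a → a < L)
    (hc : c < M) (h : q * M ≤ #{a ∈ range L | p a}) :
    q ≤ #{a ∈ range L | p a ∧ Nat.count p a % M = c} := by
  have hfin : (Set.ofPred p).Finite := (Set.finite_lt_nat L).subset fun a ha => hp a ha
  have hcard : hfin.toFinset.card = #{a ∈ range L | p a} := by
    congr 1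
    ext a
    simp only [Set.Finite.mem_toFinset, mem_filter, mem_range]
    exact ⟨fun ha => ⟨hp a ha, ha⟩, fun ha => ha.2⟩
  have hlt : ∀ i < q, ∀ hf : (Set.ofPred p).Finite, c + M * i < hf.toFinset.card := by
    intro i hi hf
    have : hf.toFinset.card = hfin.toFinset.card := by congr
    rw [this, hcard]
    calc c + M * i < M + M * i := by omega
      _ = (i + 1) * M := by ring
      _ ≤ q * M := Nat.mul_le_mul_right _ hi
      _ ≤ _ := h
  have hc1 : ∀ i < q, Nat.count p (Nat.nth p (c + M * i)) = c + M * i := fun i hi =>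
    Nat.count_nth (hlt i hi)
  rw [← card_range q]
  refine card_le_card_of_injOn (fun i => Nat.nth p (c + M * i)) ?_ ?_
  · intro i hi
    have hi' : i < q := by simpa using hi
    have hm : p (Nat.nth p (c + M * i)) := Nat.nth_mem _ (hlt i hi')
    simp only [coe_filter, mem_range, Set.mem_ofPred_eq]
    refine ⟨hp _ hm, hm, ?_⟩
    rw [hc1 i hi', Nat.add_mul_mod_self_left, Nat.mod_eq_of_lt hc]
  · intro i hi i' hi' heq
    have hi1 : i < q := by simpa using hi
    have hi2 : i' < q := by simpa using hi'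
    have e1 := hc1 i hi1
    have e2 := hc1 i' hi2
    simp only at heq
    rw [heq, e2] at e1
    have hM : 0 < M := by omega
    have : M * i' = M * i := by omega
    exact (Nat.eq_of_mul_eq_mul_left hM this).symm

variable {W : Type} [LinearOrder W] [OrderBot W]
variable {S : W → Set (Code W)} {k : W → List ℕ → ℝ} {al : W}

/-- richness of a finite set together with the new weights -/
def RichH (k : W → List ℕ → ℝ) (h : List ℕ → ℝ) (j l : ℕ) (F : Finset W) : Prop :=
  ∀ t ∈ T l, ∀ g : W → ℝ, g ⊥ = 1 → ∀ v ∈ Gr j, (∀ b ∈ F, g b ∈ Gr j) →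
    (∀ b ∈ F, ∀ c ∈ F, b ≤ c → g c ≤ g b) → (∀ b ∈ F, v ≤ g b) →
    j ≤ #{a ∈ range (l + 1) | (∀ b ∈ F, k b (a :: t) = g b) ∧ h (a :: t) = v}

lemma rich_ext (H : Hyp S k al) {s : St W} (hs : OK k al s) {F0 : Finset W}
    (hF0 : ∀ b ∈ F0, b < al) (j n : ℕ) :
    ∃ s', OK k al s' ∧ Ext k s s' ∧ F0 ⊆ s'.F ∧ ∃ l, n ≤ l ∧ l < s'.m ∧
      RichH k s'.h j l s'.F := by
  classical
  obtain ⟨s1, e1, e2, e3, -⟩ := grow_ext H hs hF0 0
  set M : ℕ := 2 ^ j with hM
  have hMpos : 0 < M := by positivity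
  obtain ⟨l, hl, hr⟩ := (H.inv s1.F e1.2.1).2.1 (max (max j 1 * M) j) (max (max n j) s1.m)
  obtain ⟨h1, f1, f2⟩ := copy_ext H e1 (F' := s1.F) (m' := l) (by omega) Subset.rfl e1.2.1
    (e1.2.2.1.mono (by omega))
  obtain ⟨d, hd, hd'⟩ := exists_top ⟨⊥, e1.1⟩
  have hdal := e1.2.1 d hd
  set u : List ℕ → ℝ := fun t => match t with
    | [] => 1
    | a :: t => min (((Nat.count (fun a' => a' < t.length + 1 ∧ ∀ b ∈ s1.F,
        k b (a' :: t) = k b (a :: t)) a % M : ℕ) + 1 : ℝ) / M) (k d (a :: t)) with hu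
  have key : ∀ t ∈ T l, ∀ g : W → ℝ, g ⊥ = 1 → ∀ v ∈ Gr j, (∀ b ∈ s1.F, g b ∈ Gr j) →
      (∀ b ∈ s1.F, ∀ c ∈ s1.F, b ≤ c → g c ≤ g b) → (∀ b ∈ s1.F, v ≤ g b) →
      max j 1 ≤ #{a ∈ range (l + 1) | (∀ b ∈ s1.F, k b (a :: t) = g b) ∧ u (a :: t) = v} := by
    intro t ht g hg1 v hv hg hg2 hvg
    have hlen := length_of_mem ht
    obtain ⟨i, hi1, hi2, rfl⟩ := mem_Gr.1 hv
    have h3 := hr t ht g hg1 (fun b hb => Gr_mono (le_max_right _ _) (hg b hb)) hg2
    set p : ℕ → Prop := fun a => a < l + 1 ∧ ∀ b ∈ s1.F, k b (a :: t) = g b with hp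
    have h4 : max j 1 * M ≤ #{a ∈ range (l + 1) | p a} := by
      refine (le_max_left _ _).trans (h3.trans (card_le_card ?_))
      intro a ha
      simp only [mem_filter, mem_range] at ha ⊢
      exact ⟨ha.1, ha.1, ha.2⟩
    have h5 := count_lemma p (c := i - 1) (fun a ha => ha.1) (by omega) h4
    refine h5.trans (card_le_card ?_)
    intro a ha
    simp only [mem_filter, mem_range] at ha ⊢
    obtain ⟨ha1, ha2, ha3⟩ := ha
    refine ⟨ha1, ha2.2, ?_⟩
    simp only [hu]
    have e : (fun a' => a' < t.length + 1 ∧ ∀ b ∈ s1.F, k b (a' :: t) = k b (a :: t)) = p := by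
      funext a'
      rw [hp, hlen]
      simp only [eq_iff_iff]
      refine and_congr_right fun _ => ?_
      constructor
      · intro h b hb; rw [h b hb, ha2.2 b hb]
      · intro h b hb; rw [h b hb, ha2.2 b hb]
    have e' : Nat.count (fun a' => a' < t.length + 1 ∧ ∀ b ∈ s1.F,
        k b (a' :: t) = k b (a :: t)) a = Nat.count p a := by
      congr 1
    rw [e', ha3]
    have e3 : ((i - 1 : ℕ) : ℝ) + 1 = i := by
      rw [Nat.cast_sub hi1]; push_cast; ring
    rw [e3, ha2.2 d hd, hM]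
    push_cast
    exact min_eq_left (hvg d hd)
  have hval : ∀ (i : ℕ) (L : ℕ), j ≤ L → (((i % M : ℕ) + 1 : ℝ) / M) ∈ Gr L := by
    intro i L hL
    refine Gr_mono hL (mem_Gr.2 ⟨i % M + 1, by omega, ?_, ?_⟩)
    · have := Nat.mod_lt i hMpos; omega
    · rw [hM]; push_cast; rfl
  obtain ⟨g1, g2⟩ := ext_by f1 (F' := s1.F) (m' := l + 1) (u := u) (Nat.le_succ _) Subset.rfl
    e1.2.1 (e1.2.2.1.mono (by omega)) (by
      intro t ht hl1 hl2
      simp only at hl1
      cases t with
      | nil => simp at hl1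
      | cons a t =>
        simp only [hu]
        have h6 : j ≤ (a :: t).length := by omega
        exact min_mem_Gr (hval _ _ h6) (H.gr d hdal _ ht)) (by
      intro b hb t ht hl1 hl2
      simp only at hl1
      cases t with
      | nil => simp at hl1
      | cons a t =>
        simp only [hu]
        exact (min_le_right _ _).trans (le_of_top e1.2.2.1 hd hb (hd' b hb) ht (by omega))) (by
      intro t ht hl1 hl2
      simp only at hl1
      have htT : t ∈ T l := mem_T.2 ⟨ht, by omega⟩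
      have h7 := key t htT (fun _ => 1) rfl 1 (one_mem_Gr _) (fun _ _ => one_mem_Gr _)
        (fun _ _ _ _ _ => le_rfl) (fun _ _ => le_rfl)
      have h8 : 0 < #{a ∈ range (l + 1) | (∀ b ∈ s1.F, k b (a :: t) = 1) ∧ u (a :: t) = 1} :=
        lt_of_lt_of_le (by omega) h7
      obtain ⟨a, ha⟩ := card_pos.1 h8
      simp only [mem_filter, mem_range] at ha
      exact ⟨a, by have := length_of_mem htT; omega, ha.2.2⟩)
  refine ⟨_, g1, (e2.trans f2).trans g2, e3, l, by omega, Nat.lt_succ_self _, ?_⟩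
  intro t ht g hg1 v hv hg hg2 hvg
  refine (le_max_left _ _).trans ((key t ht g hg1 v hv hg hg2 hvg).trans (card_le_card ?_))
  intro a ha
  simp only [mem_filter, mem_range] at ha ⊢
  refine ⟨ha.1, ha.2.1, ?_⟩
  rw [glue_gt (by simp [length_of_mem ht])]
  exact ha.2.2

/-- richness passes to subsets -/
lemma RichH.rich {h : List ℕ → ℝ} {k' : W → List ℕ → ℝ} {j l : ℕ} {F F0 : Finset W}
    (hr : RichH k h j l F) (hF : F0 ⊆ F) (hFal : ∀ b ∈ F, b < al)
    (hk : ∀ b < al, k b = k' b) (hh : ∀ t, V t → t.length ≤ l + 1 → h t = k' al t) :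
    Rich k' j l (insert al F0) := by
  classical
  intro t ht g hgb hg hg2
  -- extend the profile
  set G : W → ℝ := fun b => (insert 1 ((F0.filter (· ≤ b)).image g)).inf' ⟨1, by simp⟩ id
    with hG
  have hF0al : ∀ b ∈ F0, b < al := fun b hb => hFal b (hF hb)
  have h1 : ∀ b, G b ∈ Gr j := by
    intro b
    have : G b ∈ insert 1 ((F0.filter (· ≤ b)).image g) := by
      rw [hG]
      obtain ⟨i, hi, hi'⟩ := exists_mem_eq_inf' (s := insert 1 ((F0.filter (· ≤ b)).image g))
        ⟨1, by simp⟩ id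
      simp only
      rw [hi']; exact hi
    rcases mem_insert.1 this with h | h
    · rw [h]; exact one_mem_Gr j
    · obtain ⟨c, hc, hc'⟩ := mem_image.1 h
      rw [← hc']
      exact hg c (mem_insert_of_mem (mem_filter.1 hc).1)
  have h2 : ∀ b c, b ≤ c → G c ≤ G b := by
    intro b c hbc
    rw [hG]
    refine le_inf' _ _ fun x hx => inf'_le id ?_
    rcases mem_insert.1 hx with h | h
    · exact mem_insert.2 (Or.inl h)
    · obtain ⟨y, hy, hy'⟩ := mem_image.1 h
      refine mem_insert.2 (Or.inr (mem_image.2 ⟨y, ?_, hy'⟩))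
      exact mem_filter.2 ⟨(mem_filter.1 hy).1, (mem_filter.1 hy).2.trans hbc⟩
  have h3 : ∀ b ∈ F0, G b = g b := by
    intro b hb
    apply le_antisymm
    · have hmem : g b ∈ insert 1 ((F0.filter (· ≤ b)).image g) :=
        mem_insert_of_mem (mem_image.2 ⟨b, mem_filter.2 ⟨hb, le_rfl⟩, rfl⟩)
      exact inf'_le id hmem
    · rw [hG]
      refine le_inf' _ _ fun x hx => ?_
      rcases mem_insert.1 hx with h | h
      · rw [h]; exact Gr_le_one (hg b (mem_insert_of_mem hb))
      · obtain ⟨y, hy, hy'⟩ := mem_image.1 h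
        rw [← hy']
        exact hg2 y (mem_insert_of_mem (mem_filter.1 hy).1) b (mem_insert_of_mem hb)
          (mem_filter.1 hy).2
  have h4 : ∀ b ∈ F, g al ≤ G b := by
    intro b hb
    rw [hG]
    refine le_inf' _ _ fun x hx => ?_
    rcases mem_insert.1 hx with h | h
    · rw [h]; exact Gr_le_one (hg al (mem_insert_self _ _))
    · obtain ⟨y, hy, hy'⟩ := mem_image.1 h
      rw [← hy']
      exact hg2 y (mem_insert_of_mem (mem_filter.1 hy).1) al (mem_insert_self _ _)
        (hF0al y (mem_filter.1 hy).1).le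
  have h3' : G ⊥ = 1 := by
    apply le_antisymm
    · exact Gr_le_one (h1 ⊥)
    · rw [hG]
      refine le_inf' _ _ fun x hx => ?_
      rcases mem_insert.1 hx with h | h
      · rw [h]; exact le_rfl
      · obtain ⟨y, hy, hy'⟩ := mem_image.1 h
        have : y = ⊥ := le_bot_iff.1 (mem_filter.1 hy).2
        rw [← hy', this, hgb]; exact le_rfl
  have h5 := hr t ht G h3' (g al) (hg al (mem_insert_self _ _)) (fun b _ => h1 b)
    (fun b _ c _ hbc => h2 b c hbc) h4
  refine h5.trans (card_le_card ?_)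
  intro a ha
  simp only [mem_filter, mem_range, mem_insert, forall_eq_or_imp] at ha ⊢
  obtain ⟨ha1, ha2, ha3⟩ := ha
  refine ⟨ha1, ?_, ?_⟩
  · rw [← hh (a :: t) (V_of_mem (cons_mem_T ht ha1)) (by simp [length_of_mem ht])]
    exact ha3
  · intro b hb
    rw [← hk b (hF0al b hb), ha2 b (hF hb), h3 b hb]

end Pool.Agent.H12.Jayne
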