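import Pool.Agent.H12.Jayne.Stage2

/-!
# One step of the recursion: runs
-/

open Finset

namespace Pool.Agent.H12.Jayne

variable {W : Type} [LinearOrder W] [OrderBot W]
variable {S : W → Set (Code W)} {k : W → List ℕ → ℝ} {al : W}

lemma handle_one (H : Hyp S k al) {s : St W} (hs : OK k al s) (sh : Shape) (r : Fin sh.s → W)
    (ga : W) {N : ℕ} (hN : N ≤ s.m) (hga : ga ∈ s.F) (th : Task sh.n N) :
    ∃ s', OK k al s' ∧ Ext k s s' ∧ Handled k al (S al) sh r ga s'.h N s'.m s'.F th := by
  classical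
  by_cases hth : ∀ t ∈ T N, Antitone fun j => ex (th.2 j) t
  swap
  · exact ⟨s, hs, Ext.refl k s, fun h => absurd h hth⟩
  by_cases hex : ∃ a, Suit k al (S al) sh r s.h N s.m s.F (fun j => ex (th.1 j)) a
  swap
  · exact ⟨s, hs, Ext.refl k s, fun _ => ⟨s.m, s.F, hN, le_rfl, hga, Subset.rfl, hs.2.2.1,
      fun b _ t _ h1 h2 => absurd h1 (by omega), fun h => absurd h hex⟩⟩
  obtain ⟨a, ha⟩ := hex
  have ha' := ha
  obtain ⟨a1, a2, a3, a4, a5, a6, a7⟩ := ha
  set F' : Finset W := s.F ∪ univ.image a with hF'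
  have hcoe : (↑F' : Set W) = ↑s.F ∪ Set.range a := by rw [hF']; push_cast; simp
  have hF'al : ∀ b ∈ F', b < al := by
    intro b hb
    rcases mem_union.1 hb with h | h
    · exact hs.2.1 b h
    · obtain ⟨j, -, rfl⟩ := mem_image.1 h
      exact a2 j
  have haF' : ∀ j, a j ∈ F' := fun j => mem_union_right _ (mem_image_of_mem _ (mem_univ j))
  have hoF' : OrdS k s.m (↑F' : Set W) := by rw [hcoe]; exact a7
  obtain ⟨l, hl, hr⟩ := (H.inv F' hF'al).2.1 (max N 1) s.m
  obtain ⟨d, hd, hd'⟩ := exists_top ⟨⊥, hs.1⟩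
  have hdal := hs.2.1 d hd
  have hF'ne : F'.Nonempty := ⟨⊥, mem_union_left _ hs.1⟩
  obtain ⟨e, he, he'⟩ := exists_top hF'ne
  have heal := hF'al e he
  set u : List ℕ → ℝ := fun t => if t.length ≤ l then k e t else
    if ∀ j, k (a j) t = ex (th.2 j) (res N t) then k d t else min (1 / 2) (k d t) with hu
  have hule : ∀ t, l < t.length → u t ≤ k d t := by
    intro t ht
    simp only [hu, if_neg (not_le.2 ht)]
    split_ifs
    · exact le_rfl
    · exact min_le_right _ _
  have hsF' : (↑s.F : Set W) ⊆ ↑F' := by rw [hcoe]; exact Set.subset_union_left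
  obtain ⟨g1, g2⟩ := ext_by hs (F' := F') (m' := l + 1) (u := u) (by omega) subset_union_left
    hF'al (hoF'.mono (by omega)) (by
      intro t ht hl1 hl2
      simp only [hu]
      split_ifs
      · exact H.gr e heal t ht
      · exact H.gr d hdal t ht
      · exact min_mem_Gr (half_mem_Gr (by omega)) (H.gr d hdal t ht)) (by
      intro b hb t ht hl1 hl2
      rcases Nat.lt_or_ge l t.length with h | h
      · exact (hule t h).trans (le_of_top hs.2.2.1 hd hb (hd' b hb) ht hl1)
      · simp only [hu, if_pos h]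
        exact le_of_top hoF' he (hsF' hb) (he' b (hsF' hb)) ht hl1) (by
      intro t ht hl1 hl2
      rcases Nat.lt_or_ge t.length l with h | h
      · obtain ⟨c, hc, hc'⟩ := H.z e heal t ht
        refine ⟨c, hc, ?_⟩
        simp only [hu, List.length_cons, if_pos (show t.length + 1 ≤ l by omega)]
        exact hc'
      · have hlen : t.length = l := by omega
        have htT : t ∈ T l := mem_T.2 ⟨ht, hlen⟩
        have hresT : res N t ∈ T N := res_mem ht (by omega)
        -- the profile
        set g : W → ℝ := fun b => if h : ∃ j, a j = b then ex (th.2 h.choose) (res N t) else 1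
          with hg
        have ga' : ∀ j, g (a j) = ex (th.2 j) (res N t) := by
          intro j
          have h : ∃ j', a j' = a j := ⟨j, rfl⟩
          simp only [hg, dif_pos h]
          rw [a1.injective h.choose_spec]
        have gF : ∀ b ∈ s.F, g b = 1 := by
          intro b hb
          simp only [hg]
          rw [dif_neg]
          rintro ⟨j, hj⟩
          have := a4 b hb j
          rw [hj] at this
          exact lt_irrefl _ this
        have hg1 : ∀ b ∈ F', g b ∈ Gr (max N 1) := by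
          intro b hb
          rcases mem_union.1 hb with h | h
          · rw [gF b h]; exact one_mem_Gr _
          · obtain ⟨j, -, rfl⟩ := mem_image.1 h
            rw [ga']
            exact Gr_mono (le_max_left _ _) (ex_mem _ _)
        have hg2 : ∀ b ∈ F', ∀ c ∈ F', b ≤ c → g c ≤ g b := by
          intro b hb c hc hbc
          rcases mem_union.1 hb with h | h
          · rw [gF b h]; exact Gr_le_one (hg1 c hc)
          · obtain ⟨i, -, rfl⟩ := mem_image.1 h
            rcases mem_union.1 hc with h' | h'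
            · exact absurd (a4 c h' i) (not_lt.2 hbc)
            · obtain ⟨j, -, rfl⟩ := mem_image.1 h'
              rw [ga', ga']
              exact hth _ hresT (a1.le_iff_le.1 hbc)
        have h1 := hr t htT g (gF ⊥ hs.1) hg1 hg2
        have h2 : 0 < #{a ∈ range (l + 1) | ∀ b ∈ F', k b (a :: t) = g b} :=
          lt_of_lt_of_le (by omega) h1
        obtain ⟨c, hc⟩ := card_pos.1 h2
        simp only [mem_filter, mem_range] at hc
        refine ⟨c, by omega, ?_⟩
        simp only [hu, List.length_cons, if_neg (show ¬ t.length + 1 ≤ l by omega)]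
        rw [if_pos]
        · rw [hc.2 d (mem_union_left _ hd), gF d hd]
        · intro j
          rw [hc.2 _ (haF' j), ga', res_cons (by omega)])
  refine ⟨_, g1, g2, fun _ => ⟨s.m, s.F, hN, by simp only; omega, hga, subset_union_left,
    hs.2.2.1, g2.2.2.2, fun _ => ?_⟩⟩
  refine ⟨a, ?_, l, by omega, Nat.lt_succ_self _, haF', ?_, ?_, ?_⟩
  · exact ha'.congr (fun _ _ => rfl) hs.2.1 (le_refl s.m) (fun t ht hl' => (g2.2.2.1 t ht hl').symm)
  · intro j t ht h1 h2
    simp only
    rw [glue_gt h1]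
    simp only [hu, if_pos h2]
    exact le_of_top hoF' he (haF' j) (he' _ (haF' j)) ht h1
  · intro t ht h1
    simp only
    rw [glue_gt (by omega)]
    by_cases h : ∀ j, k (a j) t = ex (th.2 j) (res N t)
    · left; exact h
    · right
      simp only [hu, if_neg (show ¬ t.length ≤ l by omega), if_neg h]
      exact min_le_left _ _
  · intro j t ht h1 h2
    simp only at h2
    omega

omit [OrderBot W] in
lemma Handled.persist {sh : Shape} {r : Fin sh.s → W} {ga : W} {N : ℕ} {s s' : St W}
    {th : Task sh.n N} (h : Handled k al (S al) sh r ga s.h N s.m s.F th)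
    (hs : ∀ b ∈ s.F, b < al) (he : Ext k s s') :
    Handled k al (S al) sh r ga s'.h N s'.m s'.F th := by
  intro hth
  obtain ⟨m, F, e1, e2, e3, e4, e5, e6, e7⟩ := h hth
  refine ⟨m, F, e1, e2.trans he.1, e3, e4.trans he.2.1, e5, ?_, ?_⟩
  · intro b hb t ht h1 h2
    rcases Nat.lt_or_ge s.m t.length with h3 | h3
    · exact he.2.2.2 b (e4 hb) t ht h3 h2
    · rw [he.2.2.1 t ht h3]; exact e6 b hb t ht h1 h3
  · rintro ⟨a, ha⟩
    have hF : ∀ b ∈ F, b < al := fun b hb => hs b (e4 hb)
    have hh : ∀ t, V t → t.length ≤ s.m → s'.h t = s.h t := he.2.2.1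
    have hh' : ∀ t, V t → t.length ≤ s.m → s.h t = s'.h t := fun t ht hl => (hh t ht hl).symm
    obtain ⟨a', ha', l, c1, c2, c3, c4, c5, c6⟩ :=
      e7 ⟨a, ha.congr (fun _ _ => rfl) hF e2 hh⟩
    refine ⟨a', ha'.congr (fun _ _ => rfl) hF e2 hh', l, c1, by have := he.1; omega,
      fun j => he.2.1 (c3 j), ?_, ?_, ?_⟩
    · intro j t ht h1 h2
      rw [hh t ht (by omega)]; exact c4 j t ht h1 h2
    · intro t ht h1
      rw [hh t ht (by omega)]; exact c5 t ht h1
    · intro j t ht h1 h2
      rcases Nat.lt_or_ge s.m t.length with h3 | h3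
      · exact he.2.2.2 _ (c3 j) t ht h3 h2
      · rw [hh t ht h3]; exact c6 j t ht h1 h3

lemma own_run_ext (H : Hyp S k al) {s : St W} (hs : OK k al s) {F0 : Finset W}
    (hF0 : ∀ b ∈ F0, b < al) (sh : Shape) (r : Fin sh.s → W) {ga : W} (hga : ga < al) (n : ℕ) :
    ∃ s', OK k al s' ∧ Ext k s s' ∧ ∃ N, n ≤ N ∧ F0 ⊆ s'.F ∧
      Run k al (S al) sh r ga s'.h N s'.m s'.F := by
  classical
  have hF1 : ∀ b ∈ insert ga F0, b < al := by
    intro b hb
    rcases mem_insert.1 hb with rfl | h
    · exact hga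
    · exact hF0 b h
  obtain ⟨s1, e1, e2, e3, e4⟩ := grow_ext H hs hF1 n
  have key : ∀ Θ : Finset (Task sh.n s1.m), ∃ s', OK k al s' ∧ Ext k s1 s' ∧
      ∀ th ∈ Θ, Handled k al (S al) sh r ga s'.h s1.m s'.m s'.F th := by
    intro Θ
    induction Θ using Finset.induction_on with
    | empty => exact ⟨s1, e1, Ext.refl k s1, fun th h => absurd h (notMem_empty _)⟩
    | insert th Θ hth ih =>
      obtain ⟨s2, f1, f2, f3⟩ := ih
      obtain ⟨s3, g1, g2, g3⟩ := handle_one H f1 sh r ga f2.1
        (f2.2.1 (e3 (mem_insert_self _ _))) th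
      refine ⟨s3, g1, f2.trans g2, ?_⟩
      intro th' hth'
      rcases mem_insert.1 hth' with rfl | h
      · exact g3
      · exact (f3 th' h).persist f1.2.1 g2
  obtain ⟨_⟩ := nonempty_fintype (Task sh.n s1.m)
  obtain ⟨s2, f1, f2, f3⟩ := key univ
  exact ⟨s2, f1, e2.trans f2, s1.m, e4, (subset_insert _ _).trans (e3.trans f2.2.1), f2.1, f1.2.1,
    fun th => f3 th (mem_univ _)⟩

lemma copy_run_ext (H : Hyp S k al) {s : St W} (hs : OK k al s) {F0 : Finset W}
    (hF0 : ∀ b ∈ F0, b < al) {be : W} (hbe : be ∈ F0) (hne : be ≠ ⊥) (sh : Shape)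
    (r : Fin sh.s → W) (hr : ∀ i, r i < be) {ga : W} (hga : ga < be) (n : ℕ) :
    ∃ s', OK k al s' ∧ Ext k s s' ∧ ∃ N g Fp, n ≤ N ∧
      Run k be (S be) sh r ga (k be) N g Fp ∧
      (∀ b ∈ F0, be ≤ b → ∀ t, V t → N < t.length → t.length ≤ g → k b t = k be t) ∧
      (∀ t, V t → N < t.length → t.length ≤ g → s'.h t = k be t) ∧
      OrdS k g ((↑F0 : Set W) ∪ ↑Fp) ∧ F0 ⊆ s'.F ∧ Fp ⊆ s'.F ∧ s'.m = g := by
  classical
  obtain ⟨s1, e1, e2, e3, -⟩ := grow_ext H hs hF0 0
  obtain ⟨N, g, Fp, f1, f2, f3, f4⟩ := (H.inv s1.F e1.2.1).2.2 be (e3 hbe) hne sh r hr ga hga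
    (max n s1.m)
  obtain ⟨d, hd, hd'⟩ := exists_top ⟨⊥, e1.1⟩
  have hdal := e1.2.1 d hd
  have hbeal := hF0 be hbe
  set u : List ℕ → ℝ := fun t => if t.length ≤ N then k d t else k be t with hu
  have hNg := f2.1
  obtain ⟨g1, g2⟩ := ext_by e1 (F' := s1.F ∪ Fp) (m' := g) (u := u) (by omega)
    subset_union_left (by
      intro b hb
      rcases mem_union.1 hb with h | h
      · exact e1.2.1 b h
      · exact (f2.2.1 b h).trans hbeal) (by push_cast; exact f4) (by
      intro t ht hl1 hl2
      simp only [hu]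
      split_ifs
      · exact H.gr d hdal t ht
      · exact H.gr be hbeal t ht) (by
      intro b hb t ht hl1 hl2
      simp only [hu]
      split_ifs with h
      · exact le_of_top e1.2.2.1 hd hb (hd' b hb) ht hl1
      · rcases le_or_gt be b with h' | h'
        · exact (f3 b hb h' t ht (by omega) hl2).symm.le
        · exact e1.2.2.1 b hb be (e3 hbe) h' t ht hl1) (by
      intro t ht hl1 hl2
      rcases Nat.lt_or_ge t.length N with h | h
      · obtain ⟨c, hc, hc'⟩ := H.z d hdal t ht
        refine ⟨c, hc, ?_⟩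
        simp only [hu, List.length_cons, if_pos (show t.length + 1 ≤ N by omega)]
        exact hc'
      · obtain ⟨c, hc, hc'⟩ := H.z be hbeal t ht
        refine ⟨c, hc, ?_⟩
        simp only [hu, List.length_cons, if_neg (show ¬ t.length + 1 ≤ N by omega)]
        exact hc')
  refine ⟨_, g1, e2.trans g2, N, g, Fp, by omega, f2, fun b hb => f3 b (e3 hb), ?_,
    f4.subset (Set.union_subset_union_left _ (by exact_mod_cast e3)),
    e3.trans subset_union_left, subset_union_right, rfl⟩
  intro t ht h1 h2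
  simp only
  rw [glue_gt (by omega)]
  simp only [hu, if_neg (show ¬ t.length ≤ N by omega)]

end Pool.Agent.H12.Jayne
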