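import Pool.Agent.H12.Jayne.Stage3

/-!
# One step of the recursion: the limit of a generic sequence
-/

open Finset

namespace Pool.Agent.H12.Jayne

lemma exists_generic {σ : Type*} (P : σ → Prop) (E : σ → σ → Prop) (hrefl : ∀ s, E s s)
    {R : Set (σ → Prop)} (hR : R.Countable) (s0 : σ) (h0 : P s0)
    (hd : ∀ Q ∈ R, ∀ s, P s → ∃ s', P s' ∧ E s s' ∧ Q s') :
    ∃ f : ℕ → σ, f 0 = s0 ∧ (∀ i, P (f i)) ∧ (∀ i, E (f i) (f (i + 1))) ∧
      ∀ Q ∈ R, ∃ i, Q (f i) := by
  rcases R.eq_empty_or_nonempty with rfl | hne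
  · exact ⟨fun _ => s0, rfl, fun _ => h0, fun _ => hrefl _, fun Q hQ => absurd hQ (by simp)⟩
  obtain ⟨e, rfl⟩ := hR.exists_eq_range hne
  have hd' : ∀ i, ∀ s, ∃ s', P s → P s' ∧ E s s' ∧ e i s' := by
    intro i s
    by_cases hs : P s
    · obtain ⟨s', h⟩ := hd (e i) ⟨i, rfl⟩ s hs
      exact ⟨s', fun _ => h⟩
    · exact ⟨s, fun h => absurd h hs⟩
  choose nx hnx using hd'
  let f : ℕ → σ := fun i => Nat.rec s0 (fun i s => nx i s) i
  have hP : ∀ i, P (f i) := by
    intro i
    induction i with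
    | zero => exact h0
    | succ i ih => exact (hnx i (f i) ih).1
  refine ⟨f, rfl, hP, fun i => (hnx i (f i) (hP i)).2.1, ?_⟩
  rintro _ ⟨i, rfl⟩
  exact ⟨i + 1, (hnx i (f i) (hP i)).2.2⟩

instance : Countable Shape := by
  have : ∀ s n, Countable ↥(TopologicalSpace.countableBasis (ZZ s n)) := fun s n =>
    (TopologicalSpace.countable_countableBasis (ZZ s n)).to_subtype
  let F : Shape → Σ s n : ℕ, ↥(TopologicalSpace.countableBasis (ZZ s n)) := fun x =>
    ⟨x.s, x.n, x.O⟩
  have hF : Function.Injective F := by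
    rintro ⟨s, n, O⟩ ⟨s', n', O'⟩ h
    simp only [F, Sigma.mk.injEq] at h
    obtain ⟨rfl, h⟩ := h
    simp only [heq_eq_eq, Sigma.mk.injEq] at h
    obtain ⟨rfl, h⟩ := h
    simp only [heq_eq_eq] at h
    rw [h]
  exact hF.countable

variable {W : Type} [LinearOrder W]

lemma ordS_insert {k : W → List ℕ → ℝ} {al : W} {A : Set W} {g : ℕ} {h : List ℕ → ℝ}
    (hA : ∀ b ∈ A, b < al) (ho : OrdS k g A)
    (hp : ∀ b ∈ A, ∀ t, V t → g < t.length → h t ≤ k b t) :
    OrdS (Function.update k al h) g (insert al A) := by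
  intro b hb c hc hbc t ht hl
  rcases hb with rfl | hb
  · rcases hc with rfl | hc
    · exact absurd hbc (lt_irrefl _)
    · exact absurd hbc (hA c hc).not_gt
  · rcases hc with rfl | hc
    · rw [Function.update_self, Function.update_of_ne (hA b hb).ne]
      exact hp b hb t ht hl
    · rw [Function.update_of_ne (hA b hb).ne, Function.update_of_ne (hA c hc).ne]
      exact ho b hb c hc hbc t ht hl

variable [OrderBot W]

omit [OrderBot W] in
lemma lift_finset {al : W} {F : Finset W} (hF : ∀ b ∈ F, b < al) :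
    ∃ F' : Finset ↥(Set.Iio al), F'.map (Function.Embedding.subtype _) = F := by
  classical
  exact ⟨F.subtype (· < al), Finset.subtype_map_of_mem hF⟩

/-- the main step of the recursion -/
theorem stage {S : W → Set (Code W)} {mu : W → ℕ → List ℕ → ℝ} {k : W → List ℕ → ℝ} {al : W}
    (hal : al ≠ ⊥)
    (hc : (Set.Iio al).Countable) (hg : ∀ b < al, Good S mu k b) :
    ∃ h, Good S mu (Function.update k al h) al := by
  classical
  have hbot : (⊥ : W) < al := bot_lt_iff_ne_bot.2 hal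
  have hbound : ∀ F : Finset W, (∀ b ∈ F, b < al) → ∃ d < al, ∀ b ∈ F, b ≤ d := by
    intro F hF
    rcases F.eq_empty_or_nonempty with rfl | hne
    · exact ⟨⊥, hbot, fun b hb => absurd hb (notMem_empty _)⟩
    · obtain ⟨d, hd, hd'⟩ := exists_top hne
      exact ⟨d, hF d hd, hd'⟩
  have H : Hyp S k al :=
    ⟨fun b hb => (hg b hb).1, (hg ⊥ hbot).2.1 rfl, fun b hb => (hg b hb).2.2.1, fun F hF => by
      obtain ⟨d, hd, hd'⟩ := hbound F hF
      exact (hg d hd).2.2.2.2 F hd'⟩
  have : Countable ↥(Set.Iio al) := hc.to_subtype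
  -- the requirements
  let im : Finset ↥(Set.Iio al) → Finset W := fun F => F.map (Function.Embedding.subtype _)
  have him : ∀ F : Finset ↥(Set.Iio al), ∀ b ∈ im F, b < al := by
    intro F b hb
    obtain ⟨c, -, rfl⟩ := mem_map.1 hb
    exact c.2
  let R3 : Finset W → ℕ → ℕ → St W → Prop := fun F0 j n s =>
    F0 ⊆ s.F ∧ n ≤ s.m ∧ ∃ l, n ≤ l ∧ l < s.m ∧ RichH k s.h j l s.F
  let R4 : ℕ × ℕ → St W → Prop := fun n s => (∀ t, 0 ≤ mu al n.1 t) → Add (mu al n.1) →
    ∃ l, n.2 ≤ l ∧ l < s.m ∧ KillAt (mu al n.1) s.h l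
  let R5 : Finset W → W → (sh : Shape) → (Fin sh.s → W) → W → ℕ → St W → Prop :=
    fun F0 be sh r ga n s => be ∈ F0 → be ≠ ⊥ → (∀ i, r i < be) → ga < be →
      ∃ N g Fp, n ≤ N ∧
      Run k be (S be) sh r ga (k be) N g Fp ∧
      (∀ b ∈ F0, be ≤ b → ∀ t, V t → N < t.length → t.length ≤ g → k b t = k be t) ∧
      (∀ t, V t → N < t.length → t.length ≤ g → s.h t = k be t) ∧
      OrdS k g ((↑F0 : Set W) ∪ ↑Fp) ∧ F0 ⊆ s.F ∧ Fp ⊆ s.F ∧ s.m = g
  let R6 : Finset W → (sh : Shape) → (Fin sh.s → W) → W → ℕ → St W → Prop :=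
    fun F0 sh r ga n s => ∃ N, n ≤ N ∧ F0 ⊆ s.F ∧ Run k al (S al) sh r ga s.h N s.m s.F
  let RR : Set (St W → Prop) :=
    (Set.range fun p : Finset ↥(Set.Iio al) × ℕ × ℕ => R3 (im p.1) p.2.1 p.2.2) ∪
    ((Set.range R4) ∪
    ((Set.range fun p : Finset ↥(Set.Iio al) × ↥(Set.Iio al) ×
        (Σ sh : Shape, Fin sh.s → ↥(Set.Iio al)) × ↥(Set.Iio al) × ℕ =>
        R5 (im p.1) p.2.1 p.2.2.1.1 (fun i => p.2.2.1.2 i) p.2.2.2.1 p.2.2.2.2) ∪
    (Set.range fun p : Finset ↥(Set.Iio al) ×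
        (Σ sh : Shape, Fin sh.s → ↥(Set.Iio al)) × ↥(Set.Iio al) × ℕ =>
        R6 (im p.1) p.2.1.1 (fun i => p.2.1.2 i) p.2.2.1 p.2.2.2)))
  have hRR : RR.Countable :=
    (Set.countable_range _).union ((Set.countable_range _).union
      ((Set.countable_range _).union (Set.countable_range _)))
  have hdense : ∀ Q ∈ RR, ∀ s, OK k al s → ∃ s', OK k al s' ∧ Ext k s s' ∧ Q s' := by
    rintro Q (⟨⟨F, j, n⟩, rfl⟩ | ⟨n, rfl⟩ | ⟨⟨F, be, ⟨sh, r⟩, ga, n⟩, rfl⟩ | ⟨⟨F, ⟨sh, r⟩, ga, n⟩, rfl⟩) s hs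
    · obtain ⟨s', h1, h2, h3, l, h4, h5, h6⟩ := rich_ext H hs (him F) j n
      exact ⟨s', h1, h2, h3, h4.trans h5.le, l, h4, h5, h6⟩
    · by_cases h0 : (∀ t, 0 ≤ mu al n.1 t) ∧ Add (mu al n.1)
      · obtain ⟨s', h1, h2, h3⟩ := kill_ext H hs h0.1 h0.2 n.2
        exact ⟨s', h1, h2, fun _ _ => h3⟩
      · exact ⟨s, hs, Ext.refl k s, fun h1 h2 => absurd ⟨h1, h2⟩ h0⟩
    · by_cases h0 : (be : W) ∈ im F ∧ (be : W) ≠ ⊥ ∧ (∀ i, (r i : W) < be) ∧ (ga : W) < be
      · obtain ⟨s', h1, h2, h3⟩ := copy_run_ext H hs (him F) h0.1 h0.2.1 sh (fun i => (r i : W))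
          h0.2.2.1 h0.2.2.2 n
        exact ⟨s', h1, h2, fun _ _ _ _ => h3⟩
      · exact ⟨s, hs, Ext.refl k s, fun h1 h2 h3 h4 => absurd ⟨h1, h2, h3, h4⟩ h0⟩
    · exact own_run_ext H hs (him F) sh (fun i => (r i : W)) ga.2 n
  have hs0 : OK k al ⟨0, {⊥}, fun _ => 1⟩ := by
    refine ⟨mem_singleton_self _, ?_, ?_, ?_, ?_⟩
    · intro b hb
      rw [mem_singleton.1 hb]; exact hbot
    · intro b hb c hc hbc
      simp only [coe_singleton, Set.mem_singleton_iff] at hb hc
      rw [hb, hc] at hbc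
      exact absurd hbc (lt_irrefl _)
    · intro t _ h
      simp at h
    · intro t _ h
      exact one_mem_Gr _
  obtain ⟨f, -, hfP, hfE, hfR⟩ := exists_generic (OK k al) (Ext k) (Ext.refl k) hRR _ hs0 hdense
  have hmono : ∀ i j, i ≤ j → Ext k (f i) (f j) := by
    intro i j hij
    induction j, hij using Nat.le_induction with
    | base => exact Ext.refl _ _
    | succ j _ ih => exact ih.trans (hfE j)
  have r3 : ∀ F0 : Finset W, (∀ b ∈ F0, b < al) → ∀ j n, ∃ i, R3 F0 j n (f i) := by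
    intro F0 hF0 j n
    obtain ⟨F', rfl⟩ := lift_finset hF0
    exact hfR _ (Or.inl ⟨⟨F', j, n⟩, rfl⟩)
  have hbig : ∀ n, ∃ i, n ≤ (f i).m := by
    intro n
    obtain ⟨i, hi⟩ := r3 ∅ (by simp) 0 n
    exact ⟨i, hi.2.1⟩
  choose ix hix using hbig
  set h : List ℕ → ℝ := fun t => (f (ix t.length)).h t with hh
  have hlim : ∀ i t, V t → t.length ≤ (f i).m → h t = (f i).h t := by
    intro i t ht hl
    rcases le_total i (ix t.length) with h1 | h1
    · exact (hmono _ _ h1).2.2.1 t ht hl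
    · exact ((hmono _ _ h1).2.2.1 t ht (hix _)).symm
  have hprom : ∀ i, ∀ b ∈ (f i).F, ∀ t, V t → (f i).m < t.length → h t ≤ k b t := by
    intro i b hb t ht hl
    have h1 : t.length ≤ (f (max i (ix t.length))).m :=
      (hix _).trans (hmono _ _ (le_max_right _ _)).1
    rw [hlim _ t ht h1]
    exact (hmono _ _ (le_max_left _ _)).2.2.2 b hb t ht hl h1
  refine ⟨h, ?_⟩
  set k' := Function.update k al h with hk'
  have hk'al : k' al = h := Function.update_self _ _ _
  have hk'b : ∀ b < al, k b = k' b := fun b hb => (Function.update_of_ne hb.ne _ _).symm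
  refine ⟨?_, fun h => absurd h hal, ?_, ?_, ?_⟩
  · intro t ht
    rw [hk'al]
    exact (hfP (ix t.length)).2.2.2.2 t ht (hix _)
  · intro t ht
    rw [hk'al]
    obtain ⟨a, ha, ha'⟩ := (hfP (ix (t.length + 1))).2.2.2.1 t ht (hix (t.length + 1))
    refine ⟨a, ha, ?_⟩
    rw [hlim (ix (t.length + 1)) (a :: t) ⟨ha, ht⟩ (by simpa using hix (t.length + 1))]
    exact ha'
  · intro _ i0 h0 hA n
    obtain ⟨i, hi⟩ := hfR (R4 (i0, n)) (Or.inr (Or.inl ⟨(i0, n), rfl⟩))
    obtain ⟨l, h1, h2, h3⟩ := hi h0 hA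
    refine ⟨l, h1, fun t ht => ?_⟩
    rw [hk'al]
    refine le_trans (le_of_eq ?_) (h3 t ht)
    refine sum_congr rfl fun a ha => ?_
    rw [hlim i (a :: t) (V_of_mem (cons_mem_T ht (mem_range.1 ha)))
      (by rw [List.length_cons, length_of_mem ht]; omega)]
  · intro F hF
    by_cases hmem : al ∈ F
    swap
    · obtain ⟨d, hd, hd'⟩ := hbound F fun b hb => lt_of_le_of_ne (hF b hb) (by
        rintro rfl; exact hmem hb)
      exact ((hg d hd).2.2.2.2 F hd').congr hd' fun b hb => hk'b b (lt_of_le_of_lt hb hd)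
    · obtain ⟨F0, hF0, rfl⟩ : ∃ F0 : Finset W, (∀ b ∈ F0, b < al) ∧ insert al F0 = F :=
        ⟨F.erase al, fun b hb => lt_of_le_of_ne (hF b (mem_of_mem_erase hb)) (ne_of_mem_erase hb),
          insert_erase hmem⟩
      refine ⟨?_, ?_, ?_⟩
      · obtain ⟨i, hi, -, -⟩ := r3 F0 hF0 0 0
        refine ⟨(f i).m, ?_⟩
        rw [coe_insert]
        exact ordS_insert hF0 ((hfP i).2.2.1.subset (by exact_mod_cast hi))
          fun b hb => hprom i b (hi hb)
      · intro j n
        obtain ⟨i, hi, -, l, h1, h2, h3⟩ := r3 F0 hF0 j n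
        refine ⟨l, h1, h3.rich hi (hfP i).2.1 hk'b ?_⟩
        intro t ht hl
        rw [hk'al]
        exact (hlim i t ht (by omega)).symm
      · intro be hbe hne sh r hr ga hga n
        rcases mem_insert.1 hbe with rfl | hbe0
        · -- own run
          obtain ⟨F', hF'⟩ := lift_finset hF0
          obtain ⟨i, N, h1, h2, h3⟩ := hfR (R6 F0 sh r ga n) (Or.inr (Or.inr (Or.inr
            ⟨⟨F', ⟨sh, fun i => ⟨r i, hr i⟩⟩, ⟨ga, hga⟩, n⟩, by simp only [im, hF']⟩)))
          refine ⟨N, (f i).m, (f i).F, h1, ?_, ?_, ?_⟩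
          · refine h3.congr hk'b ?_
            intro t ht hl
            rw [hk'al]; exact (hlim i t ht hl).symm
          · intro b hb hle t ht _ _
            rcases mem_insert.1 hb with rfl | hb0
            · rfl
            · exact absurd (hF0 b hb0) (not_lt.2 hle)
          · refine (ordS_insert (hfP i).2.1 (hfP i).2.2.1 (hprom i)).subset ?_
            intro b hb
            rcases hb with hb | hb
            · rw [coe_insert] at hb
              rcases hb with rfl | hb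
              · exact Set.mem_insert _ _
              · exact Set.mem_insert_of_mem _ (h2 hb)
            · exact Set.mem_insert_of_mem _ hb
        · -- copied run
          obtain ⟨F', hF'⟩ := lift_finset hF0
          have hbeal := hF0 be hbe0
          obtain ⟨i, hi⟩ := hfR (R5 F0 be sh r ga n) (Or.inr (Or.inr (Or.inl
            ⟨⟨F', ⟨be, hbeal⟩, ⟨sh, fun i => ⟨r i, (hr i).trans hbeal⟩⟩, ⟨ga, hga.trans hbeal⟩, n⟩,
              by simp only [im, hF']⟩)))
          obtain ⟨N, g, Fp, h1, h2, h3, h4, h5, h6, h7, h8⟩ := hi hbe0 hne hr hga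
          refine ⟨N, g, Fp, h1, ?_, ?_, ?_⟩
          · refine h2.congr (fun b hb => hk'b b (hb.trans hbeal)) ?_
            intro t _ _
            rw [← hk'b be hbeal]
          · intro b hb hle t ht hl1 hl2
            rw [← hk'b be hbeal]
            rcases mem_insert.1 hb with rfl | hb0
            · rw [hk'al, hlim i t ht (by omega)]
              exact h4 t ht hl1 hl2
            · rw [← hk'b b (hF0 b hb0)]
              exact h3 b hb0 hle t ht hl1 hl2
          · have hlt : ∀ b ∈ (↑F0 : Set W) ∪ ↑Fp, b < al := by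
              rintro b (hb | hb)
              · exact hF0 b hb
              · exact (h2.2.1 b hb).trans hbeal
            refine (ordS_insert (h := h) hlt h5 ?_).subset ?_
            · rintro b (hb | hb) t ht hl
              · exact hprom i b (h6 hb) t ht (by omega)
              · exact hprom i b (h7 hb) t ht (by omega)
            · intro b hb
              rcases hb with hb | hb
              · rw [coe_insert] at hb
                rcases hb with rfl | hb
                · exact Set.mem_insert _ _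
                · exact Set.mem_insert_of_mem _ (Or.inl hb)
              · exact Set.mem_insert_of_mem _ (Or.inr hb)

end Pool.Agent.H12.Jayne
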