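import Mathlib

/-!
# The tree of valid lists, weights and additive functions

A node is a list of natural numbers; `a :: s` is the child of `s` with the letter `a`.  The node
`a :: s` is valid if `s` is valid and `a ≤ |s|`, so valid nodes of length `n` have `n + 1`
valid children.
-/

open Finset

namespace Pool.Agent.H12.Jayne

/-- valid nodes -/
def V : List ℕ → Prop
  | [] => True
  | a :: s => a ≤ s.length ∧ V s

instance decV : DecidablePred V
  | [] => isTrue trivial
  | a :: s => by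
      have := decV s
      unfold V
      infer_instance

@[simp] lemma V_nil : V [] := trivial
lemma V_cons {a : ℕ} {s : List ℕ} : V (a :: s) ↔ a ≤ s.length ∧ V s := Iff.rfl

/-- the valid nodes of length `n` -/
def T : ℕ → Finset (List ℕ)
  | 0 => {[]}
  | n + 1 => (T n ×ˢ range (n + 1)).image fun p => p.2 :: p.1

lemma mem_T {n : ℕ} {t : List ℕ} : t ∈ T n ↔ V t ∧ t.length = n := by
  induction n generalizing t with
  | zero =>
    cases t with
    | nil => simp [T]
    | cons a s => simp [T]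
  | succ n ih =>
    cases t with
    | nil => simp [T]
    | cons a s =>
      simp only [T, mem_image, mem_product, mem_range, Prod.exists, List.cons.injEq, V_cons,
        List.length_cons, Nat.add_right_cancel_iff]
      constructor
      · rintro ⟨s', a', ⟨h1, h2⟩, rfl, rfl⟩
        rw [ih] at h1
        exact ⟨⟨by omega, h1.1⟩, h1.2⟩
      · rintro ⟨⟨h1, h2⟩, h3⟩
        exact ⟨s, a, ⟨ih.2 ⟨h2, h3⟩, by omega⟩, rfl, rfl⟩

lemma V_of_mem {n : ℕ} {t : List ℕ} (h : t ∈ T n) : V t := (mem_T.1 h).1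
lemma length_of_mem {n : ℕ} {t : List ℕ} (h : t ∈ T n) : t.length = n := (mem_T.1 h).2

lemma cons_mem_T {n a : ℕ} {s : List ℕ} (hs : s ∈ T n) (ha : a < n + 1) : a :: s ∈ T (n + 1) := by
  rw [mem_T] at hs ⊢
  exact ⟨⟨by omega, hs.1⟩, by simp [hs.2]⟩

lemma sum_T_succ (n : ℕ) (f : List ℕ → ℝ) :
    ∑ t ∈ T (n + 1), f t = ∑ s ∈ T n, ∑ a ∈ range (n + 1), f (a :: s) := by
  rw [T, sum_image, sum_product]
  rintro ⟨s, a⟩ _ ⟨s', a'⟩ _ h
  simp only [List.cons.injEq] at h
  simp [h.1, h.2]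

@[simp] lemma T_zero : T 0 = {[]} := rfl

/-- additive functions on the tree -/
def Add (x : List ℕ → ℝ) : Prop :=
  ∀ s, V s → x s = ∑ a ∈ range (s.length + 1), x (a :: s)

/-- restriction of a node to length `N` -/
def res (N : ℕ) (t : List ℕ) : List ℕ := t.drop (t.length - N)

lemma res_self {N : ℕ} {t : List ℕ} (h : t.length = N) : res N t = t := by
  simp [res, h]

lemma res_cons {N a : ℕ} {s : List ℕ} (h : N ≤ s.length) : res N (a :: s) = res N s := by
  unfold res
  have : (a :: s).length - N = (s.length - N) + 1 := by simp; omega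
  rw [this, List.drop_succ_cons]

lemma length_res {N : ℕ} {t : List ℕ} (h : N ≤ t.length) : (res N t).length = N := by
  simp [res]; omega

lemma V_drop {t : List ℕ} (h : V t) (n : ℕ) : V (t.drop n) := by
  induction t generalizing n with
  | nil => simp
  | cons a s ih =>
    cases n with
    | zero => simpa using h
    | succ n => simpa using ih h.2 n

lemma V_res {N : ℕ} {t : List ℕ} (h : V t) : V (res N t) := V_drop h _

lemma res_mem {N : ℕ} {t : List ℕ} (h : V t) (hN : N ≤ t.length) : res N t ∈ T N :=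
  mem_T.2 ⟨V_res h, length_res hN⟩

lemma sum_res {x : List ℕ → ℝ} (hx : Add x) (φ : List ℕ → ℝ) {N L : ℕ} (h : N ≤ L) :
    ∑ t ∈ T L, φ (res N t) * x t = ∑ t ∈ T N, φ t * x t := by
  induction L, h using Nat.le_induction with
  | base => exact sum_congr rfl fun t ht => by rw [res_self (length_of_mem ht)]
  | succ L hL ih =>
    rw [sum_T_succ, ← ih]
    refine sum_congr rfl fun s hs => ?_
    rw [hx s (V_of_mem hs), length_of_mem hs, mul_sum]
    refine sum_congr rfl fun a _ => ?_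
    rw [res_cons (by rw [length_of_mem hs]; exact hL)]

lemma sum_eq_nil {x : List ℕ → ℝ} (hx : Add x) (L : ℕ) : ∑ t ∈ T L, x t = x [] := by
  have := sum_res hx (fun _ => 1) (Nat.zero_le L)
  simpa using this

/-- the value at a node is bounded by the sum over a higher level -/
lemma abs_sub_le_sum {x y : List ℕ → ℝ} (hx : Add x) (hy : Add y) {s : List ℕ} (hs : V s) {N : ℕ}
    (h : s.length ≤ N) : |x s - y s| ≤ ∑ t ∈ T N, |x t - y t| := by
  classical
  have hadd : Add fun t => x t - y t := by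
    intro t ht
    simp only
    rw [hx t ht, hy t ht, ← sum_sub_distrib]
  have h1 := sum_res hadd (fun t => if t = s then 1 else 0) h
  have h2 : ∑ t ∈ T s.length, (if t = s then 1 else 0) * (x t - y t) = x s - y s := by
    rw [sum_eq_single s]
    · simp
    · intro b _ hb; simp [hb]
    · intro hn; exact absurd (mem_T.2 ⟨hs, rfl⟩) hn
  rw [h2] at h1
  rw [← h1]
  refine (abs_sum_le_sum_abs _ _).trans (sum_le_sum fun t _ => ?_)
  rw [abs_mul]
  split_ifs <;> simp

/-! ### Products of weights -/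

/-- the product of the weights along a node -/
def pr (k : List ℕ → ℝ) : List ℕ → ℝ
  | [] => 1
  | a :: s => k (a :: s) * pr k s

@[simp] lemma pr_nil (k : List ℕ → ℝ) : pr k [] = 1 := rfl
lemma pr_cons (k : List ℕ → ℝ) (a : ℕ) (s : List ℕ) : pr k (a :: s) = k (a :: s) * pr k s := rfl

lemma pr_pos {k : List ℕ → ℝ} (hk : ∀ t, V t → 0 < k t) {t : List ℕ} (ht : V t) : 0 < pr k t := by
  induction t with
  | nil => simp
  | cons a s ih => rw [pr_cons]; exact mul_pos (hk _ ht) (ih ht.2)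

lemma pr_le_one {k : List ℕ → ℝ} (hk : ∀ t, V t → 0 < k t) (hk1 : ∀ t, V t → k t ≤ 1)
    {t : List ℕ} (ht : V t) : pr k t ≤ 1 := by
  induction t with
  | nil => simp
  | cons a s ih =>
    rw [pr_cons]
    exact mul_le_one₀ (hk1 _ ht) (pr_pos hk ht.2).le (ih ht.2)

lemma pr_congr {k k' : List ℕ → ℝ} {N : ℕ} (h : ∀ t, V t → t.length ≤ N → k t = k' t)
    {t : List ℕ} (ht : V t) (hN : t.length ≤ N) : pr k t = pr k' t := by
  induction t with
  | nil => simp
  | cons a s ih =>
    rw [pr_cons, pr_cons, h _ ht hN, ih ht.2 (by simp at hN; omega)]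

/-- comparison of the growth of two products -/
lemma pr_ratio {k k' : List ℕ → ℝ} (hk : ∀ t, V t → 0 < k t) (hk' : ∀ t, V t → 0 < k' t)
    {N L : ℕ} (h : ∀ t, V t → N < t.length → t.length ≤ L → k' t ≤ k t)
    {t : List ℕ} (ht : V t) (hN : N ≤ t.length) (hL : t.length ≤ L) :
    pr k' t * pr k (res N t) ≤ pr k t * pr k' (res N t) := by
  induction t with
  | nil => simp [res]
  | cons a s ih =>
    rcases Nat.lt_or_ge s.length N with h1 | h1
    · have : (a :: s).length = N := by simp at hN ⊢; omega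
      rw [res_self this, mul_comm]
    · rw [res_cons h1, pr_cons, pr_cons]
      have h2 := ih ht.2 h1 (by simp at hL; omega)
      have h3 := h (a :: s) ht (by simp; omega) hL
      have p1 := (pr_pos hk' ht.2).le
      have p2 := (pr_pos hk (V_res (N := N) ht.2)).le
      calc k' (a :: s) * pr k' s * pr k (res N s)
          = k' (a :: s) * (pr k' s * pr k (res N s)) := by ring
        _ ≤ k (a :: s) * (pr k s * pr k' (res N s)) :=
            mul_le_mul h3 h2 (mul_nonneg p1 p2) (hk _ ht).le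
        _ = _ := by ring

lemma pr_le_res {k : List ℕ → ℝ} (hk : ∀ t, V t → 0 < k t) (hk1 : ∀ t, V t → k t ≤ 1)
    {N : ℕ} {t : List ℕ} (ht : V t) : pr k t ≤ pr k (res N t) := by
  induction t with
  | nil => simp [res]
  | cons a s ih =>
    rcases Nat.lt_or_ge s.length N with h1 | h1
    · have : res N (a :: s) = a :: s := by
        unfold res
        have : (a :: s).length - N = 0 := by simp; omega
        rw [this]; rfl
      rw [this]
    · rw [res_cons h1, pr_cons]
      calc k (a :: s) * pr k s ≤ 1 * pr k s :=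
            mul_le_mul_of_nonneg_right (hk1 _ ht) (pr_pos hk ht.2).le
        _ ≤ _ := by rw [one_mul]; exact ih ht.2

/-! ### The grids -/

/-- the allowed weights at length `n` -/
noncomputable def Gr (n : ℕ) : Finset ℝ := (Icc 1 (2 ^ n)).image fun i : ℕ => (i : ℝ) / 2 ^ n

lemma mem_Gr {n : ℕ} {x : ℝ} : x ∈ Gr n ↔ ∃ i : ℕ, 1 ≤ i ∧ i ≤ 2 ^ n ∧ (i : ℝ) / 2 ^ n = x := by
  simp [Gr, and_assoc]

lemma Gr_pos {n : ℕ} {x : ℝ} (h : x ∈ Gr n) : 0 < x := by
  obtain ⟨i, h1, h2, rfl⟩ := mem_Gr.1 h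
  have : (0 : ℝ) < i := by exact_mod_cast h1
  positivity

lemma Gr_le_one {n : ℕ} {x : ℝ} (h : x ∈ Gr n) : x ≤ 1 := by
  obtain ⟨i, h1, h2, rfl⟩ := mem_Gr.1 h
  rw [div_le_one (by positivity)]
  exact_mod_cast h2

lemma one_mem_Gr (n : ℕ) : (1 : ℝ) ∈ Gr n :=
  mem_Gr.2 ⟨2 ^ n, Nat.one_le_two_pow, le_rfl, by simp⟩

lemma Gr_mono {n m : ℕ} (h : n ≤ m) : Gr n ⊆ Gr m := by
  intro x hx
  obtain ⟨i, h1, h2, rfl⟩ := mem_Gr.1 hx
  obtain ⟨d, rfl⟩ := Nat.exists_eq_add_of_le h
  refine mem_Gr.2 ⟨i * 2 ^ d, ?_, ?_, ?_⟩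
  · exact Nat.one_le_iff_ne_zero.2 (by positivity)
  · rw [pow_add]; exact Nat.mul_le_mul_right _ h2
  · rw [pow_add]; push_cast
    field_simp

lemma half_mem_Gr {n : ℕ} (h : 1 ≤ n) : (1 / 2 : ℝ) ∈ Gr n :=
  Gr_mono h (mem_Gr.2 ⟨1, le_rfl, by norm_num, by norm_num⟩)

lemma min_mem_Gr {n : ℕ} {x y : ℝ} (hx : x ∈ Gr n) (hy : y ∈ Gr n) : min x y ∈ Gr n := by
  rcases min_choice x y with h | h <;> rw [h] <;> assumption

/-- rounding up to the grid -/
noncomputable def up (n : ℕ) (v : ℝ) : ℝ := (max 1 ⌈v * 2 ^ n⌉₊ : ℕ) / 2 ^ n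

lemma up_mem {n : ℕ} {v : ℝ} (hv : v ≤ 1) : up n v ∈ Gr n := by
  refine mem_Gr.2 ⟨max 1 ⌈v * 2 ^ n⌉₊, le_max_left _ _, ?_, rfl⟩
  refine max_le Nat.one_le_two_pow ?_
  rw [Nat.ceil_le]
  push_cast
  calc v * 2 ^ n ≤ 1 * 2 ^ n := by gcongr
    _ = _ := one_mul _

lemma up_mono (n : ℕ) {v w : ℝ} (h : v ≤ w) : up n v ≤ up n w := by
  unfold up
  gcongr

lemma le_up (n : ℕ) (v : ℝ) : v ≤ up n v := by
  unfold up
  rw [le_div_iff₀ (by positivity)]
  calc v * 2 ^ n ≤ ⌈v * 2 ^ n⌉₊ := Nat.le_ceil _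
    _ ≤ _ := by exact_mod_cast le_max_right _ _

lemma up_le (n : ℕ) {v : ℝ} (hv : 0 ≤ v) : up n v ≤ v + 1 / 2 ^ n := by
  unfold up
  rw [div_le_iff₀ (by positivity), add_mul, one_div, inv_mul_cancel₀ (by positivity)]
  rw [Nat.cast_max, max_le_iff]
  have : 0 ≤ v * 2 ^ n := by positivity
  refine ⟨by push_cast; linarith, (Nat.ceil_lt_add_one this).le⟩

end Pool.Agent.H12.Jayne
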